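import Mathlib

/-!
Nondegenerate relations with unbounded exponents: one popular exponent pattern.
-/

set_option autoImplicit false
set_option linter.unusedSectionVars false
open Finset

namespace Pool.Agent.TH715.SPU

variable {S : Type} [Fintype S] [DecidableEq S] {m : ℕ}

/-- the integer `∏ x_i ^ f_i` -/
def V {ι : Type} [Fintype ι] (x : ι → ℕ) (f : ι → ℕ) : ℤ := ∏ i, ((x i : ℕ) : ℤ) ^ f i

/-- nondegenerate relation between the terms `V x (c s)`, `s ∈ U` -/
def NRel {ι : Type} [Fintype ι] (x : ι → ℕ) (σ : S → ℤ) (U : Finset S)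
    (c : S → ι → ℕ) : Prop :=
  ∑ s ∈ U, σ s * V x (c s) = 0 ∧
    ∀ W ⊆ U, W.Nonempty → W ≠ U → ∑ s ∈ W, σ s * V x (c s) ≠ 0

/-- an assignment as a function -/
def asg {Q : Finset ℕ} (x : Fin m ↪ Q) : Fin m → ℕ := fun i => (x i : ℕ)

lemma asg_inj {Q : Finset ℕ} (x : Fin m ↪ Q) : Function.Injective (asg x) :=
  fun _ _ hij => x.injective (Subtype.ext hij)

lemma signVar_le (P : Polynomial ℤ) : P.signVariations ≤ P.support.card := by
  induction hn : P.support.card generalizing P with
  | zero =>
    have : P = 0 := by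
      rw [Finset.card_eq_zero, Polynomial.support_eq_empty] at hn
      exact hn
    rw [this]; simp
  | succ n ih =>
    have hP : P ≠ 0 := by
      rintro rfl
      simp at hn
    have h1 := P.signVariations_le_eraseLead_succ
    have h2 := ih P.eraseLead (by
      rw [Polynomial.card_support_eraseLead, hn]; rfl)
    omega

/-- a nonzero polynomial has at most as many positive roots as terms -/
lemma pos_roots (P : Polynomial ℤ) (hP : P ≠ 0) (Z : Finset ℤ)
    (hZ : ∀ z ∈ Z, 0 < z ∧ P.IsRoot z) : Z.card ≤ P.support.card := by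
  classical
  refine le_trans ?_ (signVar_le P)
  refine le_trans ?_ (Polynomial.roots_countP_pos_le_signVariations P)
  rw [Multiset.countP_eq_card_filter]
  refine le_trans ?_ (Multiset.toFinset_card_le _)
  apply card_le_card
  intro z hz
  rw [Multiset.mem_toFinset, Multiset.mem_filter, Polynomial.mem_roots hP]
  exact ⟨(hZ z hz).2, (hZ z hz).1⟩

open Classical in
lemma class_count {Q : Finset ℕ} (hQ : ∀ p ∈ Q, p.Prime) (σ : S → ℤ) (U : Finset S)
    (c : S → Fin m → ℕ) (G : Finset (Fin m)) (τ : S → ℕ)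
    (hG : ∀ i ∈ G, ∀ s ∈ U, c s i = τ s) (s1 s2 : S) (hs1 : s1 ∈ U) (hs2 : s2 ∈ U)
    (hτ : τ s1 ≠ τ s2) :
    (univ.filter fun x : Fin m ↪ Q => NRel (asg x) σ U c).card ≤
      (U.card * G.card.factorial) * (Q.card.descFactorial (m - G.card)) := by
  classical
  set X := univ.filter fun x : Fin m ↪ Q => NRel (asg x) σ U c with hX
  let restr : (Fin m ↪ Q) → ({i // i ∉ G} ↪ Q) := fun x => (Function.Embedding.subtype _).trans x
  have himg : (X.image restr).card ≤ Q.card.descFactorial (m - G.card) := by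
    calc (X.image restr).card ≤ (univ : Finset ({i // i ∉ G} ↪ Q)).card := card_le_univ _
      _ = Q.card.descFactorial (m - G.card) := by
          rw [card_univ, Fintype.card_embedding_eq, Fintype.card_coe]
          congr 1
          rw [Fintype.card_subtype_compl, Fintype.card_fin, Fintype.card_coe]
  refine le_trans (Finset.card_le_mul_card_image X (U.card * G.card.factorial) (f := restr) ?_)
    (Nat.mul_le_mul_left _ himg)
  intro y _
  -- the polynomial
  let α : S → ℤ := fun s => ∏ i : {i // i ∉ G}, ((y i : ℕ) : ℤ) ^ (c s i : ℕ)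
  let F : Polynomial ℤ := ∑ s ∈ U, Polynomial.C (σ s * α s) * Polynomial.X ^ (τ s : ℕ)
  let Y : (Fin m ↪ Q) → ℤ := fun x => ∏ i ∈ G, ((x i : ℕ) : ℤ)
  have hV : ∀ x : Fin m ↪ Q, restr x = y → ∀ s ∈ U, V (asg x) (c s) = α s * Y x ^ (τ s : ℕ) := by
    intro x hx s hs
    unfold V asg
    rw [← Finset.prod_mul_prod_compl G, mul_comm]
    congr 1
    · have h1 : ∀ i : {i // i ∉ G}, (y i : ℕ) = (x i : ℕ) := by
        intro i; rw [← hx]; rfl
      simp only [α]
      simp_rw [h1]
      rw [← Finset.prod_subtype (Gᶜ) (p := fun i => i ∉ G) (fun i => mem_compl)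
        (fun i => ((x i : ℕ) : ℤ) ^ (c s i : ℕ))]
    · simp only [Y]
      rw [← Finset.prod_pow]
      refine Finset.prod_congr rfl fun i hi => ?_
      rw [hG i hi s hs]
  have hsum : ∀ x : Fin m ↪ Q, restr x = y → ∀ W ⊆ U, ∑ s ∈ W, σ s * V (asg x) (c s) =
      ∑ s ∈ W, σ s * α s * Y x ^ (τ s : ℕ) := by
    intro x hx W hW
    refine Finset.sum_congr rfl fun s hs => ?_
    rw [hV x hx s (hW hs)]; ring
  set E := X.filter fun x => restr x = y with hE
  by_cases hne : E.Nonempty
  swap
  · rw [Finset.not_nonempty_iff_eq_empty.mp hne]; simp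
  have hsupp : F.support.card ≤ U.card := by
    have h1 : F.support ⊆ U.image fun s => τ s := by
      intro n hn
      rw [Polynomial.mem_support_iff] at hn
      by_contra hc
      apply hn
      simp only [F, Polynomial.finsetSum_coeff, Polynomial.coeff_C_mul, Polynomial.coeff_X_pow]
      refine Finset.sum_eq_zero fun s hs => ?_
      have : n ≠ τ s := fun h' => hc (mem_image.mpr ⟨s, hs, h'.symm⟩)
      simp [this]
    exact (card_le_card h1).trans card_image_le
  have hF0 : F ≠ 0 := by
    obtain ⟨x, hx⟩ := hne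
    have hx' := mem_filter.mp hx
    have hrel := (mem_filter.mp hx'.1).2
    have h1 := hrel.2 (U.filter fun s => τ s = τ s1) (filter_subset _ _)
      ⟨s1, mem_filter.mpr ⟨hs1, rfl⟩⟩ (by
        intro hc
        have := hs2
        rw [← hc, mem_filter] at this
        exact hτ this.2.symm)
    rw [hsum x hx'.2 _ (filter_subset _ _)] at h1
    intro hF
    apply h1
    have h2 : F.coeff (τ s1 : ℕ) = 0 := by rw [hF]; simp
    have h3 : ∑ s ∈ U.filter (fun s => τ s = τ s1), σ s * α s * Y x ^ (τ s : ℕ) =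
        (∑ s ∈ U.filter (fun s => τ s = τ s1), σ s * α s) * Y x ^ (τ s1 : ℕ) := by
      rw [Finset.sum_mul]
      refine Finset.sum_congr rfl fun s hs => ?_
      rw [(mem_filter.mp hs).2]
    rw [h3]
    have h4 : ∑ s ∈ U.filter (fun s => τ s = τ s1), σ s * α s = 0 := by
      rw [← h2]
      simp only [F, Polynomial.finsetSum_coeff, Polynomial.coeff_C_mul, Polynomial.coeff_X_pow]
      rw [Finset.sum_filter]
      refine Finset.sum_congr rfl fun s _ => ?_
      by_cases hs : τ s = τ s1
      · simp [hs]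
      · have : (τ s1 : ℕ) ≠ (τ s : ℕ) := fun h' => hs h'.symm
        simp [hs, this]
    rw [h4, zero_mul]
  have hYpos : ∀ x : Fin m ↪ Q, 0 < Y x := by
    intro x
    apply Finset.prod_pos
    intro i _
    exact_mod_cast (hQ _ (x i).2).pos
  have hroots : (E.image Y).card ≤ U.card := by
    refine le_trans (pos_roots F hF0 (E.image Y) ?_) hsupp
    intro z hz
    obtain ⟨x, hx, rfl⟩ := mem_image.mp hz
    have hx' := mem_filter.mp hx
    have hrel := (mem_filter.mp hx'.1).2
    refine ⟨hYpos x, ?_⟩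
    simp only [Polynomial.IsRoot]
    have h1 := hrel.1
    rw [hsum x hx'.2 U (Subset.refl _)] at h1
    simp only [F, Polynomial.eval_finsetSum, Polynomial.eval_mul, Polynomial.eval_C,
      Polynomial.eval_pow, Polynomial.eval_X]
    exact h1
  have hfib : ∀ z ∈ E.image Y, (E.filter fun x => Y x = z).card ≤ G.card.factorial := by
    intro z hz
    obtain ⟨x0, hx0, hx0z⟩ := mem_image.mp hz
    set I : Finset Q := G.image fun i => x0 i with hI
    have hIcard : I.card = G.card := card_image_of_injective _ x0.injective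
    have hmem : ∀ x ∈ E.filter (fun x => Y x = z), ∀ i ∈ G, x i ∈ I := by
      intro x hx i hi
      have hx' := mem_filter.mp hx
      have hp : Prime (((x i : ℕ)) : ℤ) := Nat.prime_iff_prime_int.mp (hQ _ (x i).2)
      have h1 : (((x i : ℕ)) : ℤ) ∣ Y x0 := by
        rw [hx0z, ← hx'.2]
        exact Finset.dvd_prod_of_mem (fun i => ((x i : ℕ) : ℤ)) hi
      obtain ⟨i', hi', hd⟩ := (hp.dvd_finsetProd_iff (fun i => ((x0 i : ℕ) : ℤ))).mp h1
      have h2 : (x i : ℕ) ∣ (x0 i' : ℕ) := by exact_mod_cast hd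
      have h3 : (x i : ℕ) = (x0 i' : ℕ) :=
        (Nat.prime_dvd_prime_iff_eq (hQ _ (x i).2) (hQ _ (x0 i').2)).mp h2
      rw [hI, mem_image]
      exact ⟨i', hi', (Subtype.ext h3).symm⟩
    have hcard : Fintype.card (G ↪ I) = G.card.factorial := by
      rw [Fintype.card_embedding_eq, Fintype.card_coe, Fintype.card_coe, hIcard,
        Nat.descFactorial_self]
    rw [← hcard, ← card_univ]
    refine Finset.card_le_card_of_injOn (fun x => if hx : ∀ i ∈ G, x i ∈ I then
      (⟨fun i : G => (⟨x i, hx i i.2⟩ : I), fun i j hij => by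
        have h1 := congrArg Subtype.val hij
        exact Subtype.ext (x.injective h1)⟩ : G ↪ I) else
      (⟨fun i : G => (⟨x0 i, mem_image_of_mem _ i.2⟩ : I), fun i j hij => by
        have h1 := congrArg Subtype.val hij
        exact Subtype.ext (x0.injective h1)⟩ : G ↪ I)) (fun _ _ => mem_coe.mpr (mem_univ _)) ?_
    intro x hx x' hx' heq
    have hxm := hmem x (mem_coe.mp hx)
    have hxm' := hmem x' (mem_coe.mp hx')
    simp only [dif_pos hxm, dif_pos hxm'] at heq
    ext i
    by_cases hi : i ∈ G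
    · have h1 := congrArg (fun f : G ↪ I => ((f ⟨i, hi⟩ : I) : Q)) heq
      exact congrArg Subtype.val h1
    · have h1 := (mem_filter.mp (mem_filter.mp (mem_coe.mp hx)).1).2
      have h2 := (mem_filter.mp (mem_filter.mp (mem_coe.mp hx')).1).2
      have h3 : restr x = restr x' := by rw [h1, h2]
      have h4 := congrArg (fun f : {i // i ∉ G} ↪ Q => ((f ⟨i, hi⟩ : Q) : ℕ)) h3
      exact h4
  calc E.card ≤ G.card.factorial * (E.image Y).card :=
        Finset.card_le_mul_card_image E _ hfib
    _ ≤ G.card.factorial * U.card := Nat.mul_le_mul_left _ hroots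
    _ = U.card * G.card.factorial := mul_comm _ _

end Pool.Agent.TH715.SPU
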