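import Pool.Agent.TH715.SPU.Exi

/-!
The probability of a nondegenerate relation with unbounded exponents.
-/

set_option autoImplicit false
set_option linter.unusedSectionVars false
open Finset

namespace Pool.Agent.TH715.SPU

variable {S : Type} [Fintype S] [DecidableEq S] {m : ℕ}

open Classical in
lemma code_count {Q : Finset ℕ} (hQ : ∀ p ∈ Q, p.Prime) (σ : S → ℤ) (U : Finset S)
    (c : S → Fin m → ℕ) (hmin : ∀ i, ∃ s ∈ U, c s i = 0) (W : Finset (Fin m)) (g : ℕ)
    (hcl : ∀ i ∈ W, (W.filter fun i' => ∀ s ∈ U, c s i' = c s i).card ≤ g)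
    (𝒱 : Finset (Finset S × Finset S)) (hCon : Con 𝒱 U) :
    (univ.filter fun x : Fin m ↪ Q => NRel (asg x) σ U c ∧ Vp (asg x) σ c W = 𝒱).card ≤
      g ^ W.card * (Q.card.descFactorial (m - W.card) * Q.card.choose W.card) := by
  classical
  set X := univ.filter fun x : Fin m ↪ Q => NRel (asg x) σ U c ∧ Vp (asg x) σ c W = 𝒱 with hX
  let code : (Fin m ↪ Q) → ({i // i ∉ W} ↪ Q) × Finset Q :=
    fun x => ((Function.Embedding.subtype _).trans x, W.image fun i => x i)
  have himg : (X.image code).card ≤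
      Q.card.descFactorial (m - W.card) * Q.card.choose W.card := by
    calc (X.image code).card
        ≤ ((univ : Finset ({i // i ∉ W} ↪ Q)) ×ˢ
          ((univ : Finset Q).powersetCard W.card)).card := by
          apply card_le_card
          intro z hz
          obtain ⟨x, _, rfl⟩ := mem_image.mp hz
          rw [mem_product]
          refine ⟨mem_univ _, ?_⟩
          rw [mem_powersetCard]
          exact ⟨subset_univ _, card_image_of_injective _ x.injective⟩
      _ = _ := by
          rw [card_product, card_univ, Fintype.card_embedding_eq, card_powersetCard, card_univ,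
            Fintype.card_coe, Fintype.card_subtype_compl, Fintype.card_fin, Fintype.card_coe]
  refine le_trans (Finset.card_le_mul_card_image X (g ^ W.card) (f := code) ?_)
    (Nat.mul_le_mul_left _ himg)
  intro z _
  set E := X.filter fun x => code x = z with hE
  by_cases hne : E.Nonempty
  swap
  · rw [Finset.not_nonempty_iff_eq_empty.mp hne]; simp
  obtain ⟨x0, hx0⟩ := hne
  have hx0' := mem_filter.mp hx0
  have hx0'' := (mem_filter.mp hx0'.1).2
  let Z : W → Finset Q := fun i =>
    (W.filter fun i' => ∀ s ∈ U, c s i' = c s i).image fun i' => x0 i'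
  have hZ : ∀ i : W, (Z i).card ≤ g := fun i => card_image_le.trans (hcl i i.2)
  have hmem : ∀ x ∈ E, ∀ i : W, x i ∈ Z i := by
    intro x hx i
    have hx' := mem_filter.mp hx
    have hx'' := (mem_filter.mp hx'.1).2
    have hcode : code x = code x0 := hx'.2.trans hx0'.2.symm
    have h1 : ∀ i ∉ W, asg x i = asg x0 i := by
      intro i hi
      have h2 := congrArg (fun z => ((z.1 ⟨i, hi⟩ : Q) : ℕ)) hcode
      exact h2
    have h2 : (W.image fun i => x i) = W.image fun i => x0 i := congrArg Prod.snd hcode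
    have h3 : W.image (asg x) = W.image (asg x0) := by
      have h4 := congrArg (fun I : Finset Q => I.image Subtype.val) h2
      simp only [image_image] at h4
      exact h4
    have h4 : x i ∈ W.image fun i => x0 i := by
      rw [← h2]; exact mem_image_of_mem _ i.2
    obtain ⟨i', hi', hi'x⟩ := mem_image.mp h4
    have h5 : asg x (i : Fin m) = asg x0 i' := (congrArg Subtype.val hi'x).symm
    have h6 := pat_eq (U := U) (c := c) (σ := σ) (𝒱 := 𝒱) (W := W)
      (fun i => hQ _ (x i).2) (fun i => hQ _ (x0 i).2) (asg_inj x) (asg_inj x0) h1 h3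
      hx''.1 hx0''.1 (by
        intro z hz
        rw [← hx''.2, Vp, mem_filter] at hz
        exact hz.2) (by
        intro z hz
        rw [← hx0''.2, Vp, mem_filter] at hz
        exact hz.2) hCon hmin h5
    rw [mem_image]
    exact ⟨i', mem_filter.mpr ⟨hi', fun s hs => (h6 s hs).symm⟩, hi'x⟩
  calc E.card ≤ (Fintype.piFinset Z).card := by
        refine Finset.card_le_card_of_injOn (fun x => fun i : W => x i) ?_ ?_
        · intro x hx
          rw [mem_coe, Fintype.mem_piFinset]
          exact hmem x (mem_coe.mp hx)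
        · intro x hx x' hx' heq
          have h1 : code x = code x' :=
            (mem_filter.mp (mem_coe.mp hx)).2.trans (mem_filter.mp (mem_coe.mp hx')).2.symm
          ext i
          by_cases hi : i ∈ W
          · have h2 := congrFun heq ⟨i, hi⟩
            exact congrArg Subtype.val h2
          · have h2 := congrArg (fun z => ((z.1 ⟨i, hi⟩ : Q) : ℕ)) h1
            exact h2
    _ = ∏ i, (Z i).card := Fintype.card_piFinset _
    _ ≤ ∏ _i : W, g := Finset.prod_le_prod' fun i _ => hZ i
    _ = g ^ W.card := by rw [prod_const, card_univ, Fintype.card_coe]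

lemma desc_ineq1 (N m g : ℕ) (hmN : m ≤ N) (hgm : g ≤ m) :
    g.factorial * N.descFactorial (m - g) * N ^ g ≤ m ^ g * N.descFactorial m := by
  have h1 : N.descFactorial m = N.descFactorial (m - g) * (N - (m - g)).descFactorial g := by
    have h2 := Nat.descFactorial_mul_descFactorial (n := N) (k := m - g) (m := m) (by omega)
    have h3 : m - (m - g) = g := by omega
    rw [h3] at h2
    rw [← h2, mul_comm]
  rw [h1]
  have h2 : g.factorial * N ^ g ≤ m ^ g * (N - (m - g)).descFactorial g := by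
    rw [← Nat.descFactorial_self g, Nat.descFactorial_eq_prod_range, Nat.descFactorial_eq_prod_range]
    have h3 : N ^ g = ∏ _i ∈ range g, N := by simp
    have h4 : m ^ g = ∏ _i ∈ range g, m := by simp
    rw [h3, h4, ← Finset.prod_mul_distrib, ← Finset.prod_mul_distrib]
    refine Finset.prod_le_prod' fun i hi => ?_
    have hi' := mem_range.mp hi
    obtain ⟨t, ht⟩ : ∃ t, g = i + t := ⟨g - i, by omega⟩
    obtain ⟨u, hu⟩ : ∃ u, N = m + u := ⟨N - m, by omega⟩
    have e1 : g - i = t := by omega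
    have e2 : N - (m - g) - i = u + t := by omega
    rw [e1, e2, hu]
    have : t ≤ m := by omega
    nlinarith [Nat.mul_le_mul_right u this]
  calc g.factorial * N.descFactorial (m - g) * N ^ g
      = N.descFactorial (m - g) * (g.factorial * N ^ g) := by ring
    _ ≤ N.descFactorial (m - g) * (m ^ g * (N - (m - g)).descFactorial g) :=
        Nat.mul_le_mul_left _ h2
    _ = _ := by ring

lemma desc_ineq2 (N m w : ℕ) (hmN : 2 * m ≤ N) (hwm : w ≤ m) :
    w.factorial * (N.descFactorial (m - w) * N.choose w) ≤ 2 ^ w * N.descFactorial m := by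
  have h1 : N.descFactorial m = N.descFactorial (m - w) * (N - (m - w)).descFactorial w := by
    have h2 := Nat.descFactorial_mul_descFactorial (n := N) (k := m - w) (m := m) (by omega)
    have h3 : m - (m - w) = w := by omega
    rw [h3] at h2
    rw [← h2, mul_comm]
  have h2 : N.descFactorial w ≤ 2 ^ w * (N - (m - w)).descFactorial w := by
    rw [Nat.descFactorial_eq_prod_range, Nat.descFactorial_eq_prod_range]
    have h3 : 2 ^ w = ∏ _i ∈ range w, 2 := by simp
    rw [h3, ← Finset.prod_mul_distrib]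
    refine Finset.prod_le_prod' fun i hi => ?_
    have hi' := mem_range.mp hi
    omega
  rw [h1]
  calc w.factorial * (N.descFactorial (m - w) * N.choose w)
      = N.descFactorial (m - w) * (w.factorial * N.choose w) := by ring
    _ = N.descFactorial (m - w) * N.descFactorial w := by
        rw [Nat.descFactorial_eq_factorial_mul_choose N w]
    _ ≤ N.descFactorial (m - w) * (2 ^ w * (N - (m - w)).descFactorial w) :=
        Nat.mul_le_mul_left _ h2
    _ = _ := by ring

lemma pow_fact_le (g w0 w : ℕ) (hg : 6 * g ≤ w0) (hw0 : 1 ≤ w0) (hw : w0 ≤ w) :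
    (2 * g : ℝ) ^ w / w.factorial ≤ (6 * g / w0 : ℝ) ^ w0 := by
  have hw0' : (0 : ℝ) < w0 := by exact_mod_cast hw0
  have hw' : (0 : ℝ) < w := by exact_mod_cast lt_of_lt_of_le (by omega : 0 < w0) hw
  have h1 : (w : ℝ) ^ w / w.factorial ≤ Real.exp w :=
    Real.pow_div_factorial_le_exp _ hw'.le w
  have h2 : Real.exp w ≤ 3 ^ w := by
    rw [← Real.exp_one_pow]
    exact pow_le_pow_left₀ (Real.exp_pos _).le Real.exp_one_lt_three.le w
  calc (2 * g : ℝ) ^ w / w.factorial = (2 * g / w : ℝ) ^ w * ((w : ℝ) ^ w / w.factorial) := by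
        rw [div_pow]; field_simp
    _ ≤ (2 * g / w : ℝ) ^ w * 3 ^ w :=
        mul_le_mul_of_nonneg_left (h1.trans h2) (by positivity)
    _ = (6 * g / w : ℝ) ^ w := by rw [← mul_pow]; congr 1; ring
    _ ≤ (6 * g / w0 : ℝ) ^ w := by
        apply pow_le_pow_left₀ (by positivity)
        apply div_le_div_of_nonneg_left (by positivity) hw0'
        exact_mod_cast hw
    _ ≤ (6 * g / w0 : ℝ) ^ w0 := by
        apply pow_le_pow_of_le_one (by positivity) _ hw
        rw [div_le_one hw0']
        exact_mod_cast hg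

open Classical in
lemma caseB {Q : Finset ℕ} (hQ : ∀ p ∈ Q, p.Prime) (hmN : 2 * m ≤ Q.card) (σ : S → ℤ)
    (U : Finset S) (hU : U.Nonempty) (c : S → Fin m → ℕ) (hmin : ∀ i, ∃ s ∈ U, c s i = 0)
    (T0 : Finset (Fin m)) (g w0 : ℕ) (hg : 6 * g ≤ w0) (hw0 : 1 ≤ w0)
    (hcl : ∀ i ∈ T0, (T0.filter fun i' => ∀ s ∈ U, c s i' = c s i).card ≤ g)
    (hT0 : T0.card = Rf (Fintype.card S - 1) * w0) :
    ((univ.filter fun x : Fin m ↪ Q => NRel (asg x) σ U c).card : ℝ) ≤
      2 ^ (4 ^ Fintype.card S) * (2 ^ T0.card * (6 * g / w0 : ℝ) ^ w0) *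
        Fintype.card (Fin m ↪ Q) := by
  classical
  set X := univ.filter fun x : Fin m ↪ Q => NRel (asg x) σ U c with hX
  let Ws := T0.powerset.filter fun W => w0 ≤ W.card
  let Vs := (univ : Finset (Finset (Finset S × Finset S))).filter fun 𝒱 => Con 𝒱 U
  let XX : Finset (Fin m) × Finset (Finset S × Finset S) → Finset (Fin m ↪ Q) := fun z =>
    univ.filter fun x : Fin m ↪ Q => NRel (asg x) σ U c ∧ Vp (asg x) σ c z.1 = z.2
  have hcov : X ⊆ (Ws ×ˢ Vs).biUnion XX := by
    intro x hx
    have hx' := (mem_filter.mp hx).2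
    obtain ⟨W, hW, hWc, hCon⟩ := exist_W (x := asg x) (fun i => hQ _ (x i).2) hx' hU T0
    rw [mem_biUnion]
    refine ⟨(W, Vp (asg x) σ c W), ?_, ?_⟩
    · rw [mem_product]
      refine ⟨mem_filter.mpr ⟨mem_powerset.mpr hW, ?_⟩, mem_filter.mpr ⟨mem_univ _, hCon⟩⟩
      have h1 : Rf (U.card - 1) ≤ Rf (Fintype.card S - 1) :=
        Rf_mono (Nat.sub_le_sub_right (card_le_univ _) 1)
      have h2 : Rf (Fintype.card S - 1) * w0 ≤ Rf (Fintype.card S - 1) * W.card := by
        rw [← hT0]
        exact hWc.trans (Nat.mul_le_mul_right _ h1)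
      exact Nat.le_of_mul_le_mul_left h2 (Rf_pos _)
    · exact mem_filter.mpr ⟨mem_univ _, hx', rfl⟩
  have hcardemb : (Fintype.card (Fin m ↪ Q) : ℝ) = Q.card.descFactorial m := by
    rw [Fintype.card_embedding_eq, Fintype.card_coe, Fintype.card_fin]
  have hone : ∀ z ∈ Ws ×ˢ Vs, ((XX z).card : ℝ) ≤
      (6 * g / w0 : ℝ) ^ w0 * Fintype.card (Fin m ↪ Q) := by
    intro z hz
    obtain ⟨hz1, hz2⟩ := mem_product.mp hz
    obtain ⟨hz1a, hz1b⟩ := mem_filter.mp hz1
    have hz1c := mem_powerset.mp hz1a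
    have h1 := code_count hQ σ U c hmin z.1 g (by
      intro i hi
      refine le_trans (card_le_card ?_) (hcl i (hz1c hi))
      exact filter_subset_filter _ hz1c) z.2 (mem_filter.mp hz2).2
    have hwm : z.1.card ≤ m := by
      calc z.1.card ≤ (univ : Finset (Fin m)).card := card_le_univ _
        _ = m := by simp
    have h2 := desc_ineq2 Q.card m z.1.card hmN hwm
    have h3 : ((z.1.card.factorial : ℕ) : ℝ) * ((Q.card.descFactorial (m - z.1.card) : ℝ) *
        (Q.card.choose z.1.card : ℝ)) ≤ 2 ^ z.1.card * (Q.card.descFactorial m : ℝ) := by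
      exact_mod_cast h2
    have hfp : (0 : ℝ) < z.1.card.factorial := by exact_mod_cast Nat.factorial_pos _
    rw [hcardemb]
    calc ((XX z).card : ℝ)
        ≤ (g : ℝ) ^ z.1.card * ((Q.card.descFactorial (m - z.1.card) : ℝ) *
            (Q.card.choose z.1.card : ℝ)) := by exact_mod_cast h1
      _ ≤ (g : ℝ) ^ z.1.card * (2 ^ z.1.card * (Q.card.descFactorial m : ℝ) /
            z.1.card.factorial) := by
          refine mul_le_mul_of_nonneg_left ?_ (by positivity)
          rw [le_div_iff₀ hfp, mul_comm]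
          exact h3
      _ = (2 * g : ℝ) ^ z.1.card / z.1.card.factorial * (Q.card.descFactorial m : ℝ) := by
          rw [mul_pow]; ring
      _ ≤ (6 * g / w0 : ℝ) ^ w0 * (Q.card.descFactorial m : ℝ) :=
          mul_le_mul_of_nonneg_right (pow_fact_le g w0 _ hg hw0 hz1b) (Nat.cast_nonneg _)
  have hnum : ((Ws ×ˢ Vs).card : ℝ) ≤ 2 ^ (4 ^ Fintype.card S) * 2 ^ T0.card := by
    have h1 : (Ws ×ˢ Vs).card ≤ 2 ^ T0.card * 2 ^ (4 ^ Fintype.card S) := by
      rw [card_product]
      refine Nat.mul_le_mul ?_ ?_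
      · calc Ws.card ≤ T0.powerset.card := card_filter_le _ _
          _ = _ := card_powerset _
      · calc Vs.card ≤ (univ : Finset (Finset (Finset S × Finset S))).card := card_filter_le _ _
          _ = 2 ^ (4 ^ Fintype.card S) := by
              rw [card_univ, Fintype.card_finset, Fintype.card_prod, Fintype.card_finset,
                ← mul_pow]
              norm_num
    rw [mul_comm]
    exact_mod_cast h1
  calc (X.card : ℝ) ≤ (((Ws ×ˢ Vs).biUnion XX).card : ℝ) := by exact_mod_cast card_le_card hcov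
    _ ≤ ∑ z ∈ Ws ×ˢ Vs, ((XX z).card : ℝ) := by exact_mod_cast card_biUnion_le
    _ ≤ ∑ _z ∈ Ws ×ˢ Vs, (6 * g / w0 : ℝ) ^ w0 * Fintype.card (Fin m ↪ Q) :=
        Finset.sum_le_sum hone
    _ = (Ws ×ˢ Vs).card * ((6 * g / w0 : ℝ) ^ w0 * Fintype.card (Fin m ↪ Q)) := by
        rw [sum_const, nsmul_eq_mul]
    _ ≤ (2 ^ (4 ^ Fintype.card S) * 2 ^ T0.card) *
          ((6 * g / w0 : ℝ) ^ w0 * Fintype.card (Fin m ↪ Q)) :=
        mul_le_mul_of_nonneg_right hnum (by positivity)
    _ = _ := by ring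

/-- subtracting the minimal exponents -/
lemma NRel_norm {x : Fin m → ℕ} (hx : ∀ i, (x i).Prime) {σ : S → ℤ} {U : Finset S}
    {c : S → Fin m → ℕ} (μ : Fin m → ℕ) (hμ : ∀ i, ∀ s ∈ U, μ i ≤ c s i)
    (h : NRel x σ U c) : NRel x σ U (fun s i => c s i - μ i) := by
  have h1 : ∀ s ∈ U, V x (c s) = V x (fun i => c s i - μ i) * V x μ := by
    intro s hs
    unfold V
    rw [← Finset.prod_mul_distrib]
    refine Finset.prod_congr rfl fun i _ => ?_
    rw [← pow_add, Nat.sub_add_cancel (hμ i s hs)]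
  have h2 : ∀ W ⊆ U, ∑ s ∈ W, σ s * V x (c s) =
      (∑ s ∈ W, σ s * V x (fun i => c s i - μ i)) * V x μ := by
    intro W hW
    rw [Finset.sum_mul]
    refine Finset.sum_congr rfl fun s hs => ?_
    rw [h1 s (hW hs)]; ring
  have h3 : V x μ ≠ 0 := (V_pos hx μ).ne'
  refine ⟨?_, ?_⟩
  · have := h.1
    rw [h2 U (Subset.refl _)] at this
    exact (mul_eq_zero.mp this).resolve_right h3
  · intro W hW hWn hWU hc
    apply h.2 W hW hWn hWU
    rw [h2 W hW, hc, zero_mul]

open Classical in
/-- a relation with many nonconstant coordinates is unlikely -/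
lemma rel_prob {Q : Finset ℕ} (hQ : ∀ p ∈ Q, p.Prime) (hmN : 2 * m ≤ Q.card) (σ : S → ℤ)
    (U : Finset S) (c : S → Fin m → ℕ) (g w0 : ℕ) (hg : 6 * g ≤ w0) (hw0 : 1 ≤ w0)
    (hbig : Rf (Fintype.card S - 1) * w0 ≤
      (univ.filter fun i : Fin m => ∃ s1 ∈ U, ∃ s2 ∈ U, c s1 i ≠ c s2 i).card) :
    ((univ.filter fun x : Fin m ↪ Q => NRel (asg x) σ U c).card : ℝ) ≤
      (Fintype.card S * ((m : ℝ) / Q.card) ^ (g + 1) +
        2 ^ (4 ^ Fintype.card S) * (2 ^ Rf (Fintype.card S - 1) * (6 * g) / w0 : ℝ) ^ w0) *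
        Fintype.card (Fin m ↪ Q) := by
  classical
  set nc := univ.filter fun i : Fin m => ∃ s1 ∈ U, ∃ s2 ∈ U, c s1 i ≠ c s2 i with hnc
  obtain ⟨T0, hT0nc, hT0⟩ := exists_subset_card_eq hbig
  have hT0pos : 0 < T0.card := by rw [hT0]; exact Nat.mul_pos (Rf_pos _) hw0
  have hU : U.Nonempty := by
    obtain ⟨i, hi⟩ := card_pos.mp hT0pos
    obtain ⟨s1, hs1, _⟩ := (mem_filter.mp (hT0nc hi)).2
    exact ⟨s1, hs1⟩
  have hμ : ∀ i, ∃ s0 ∈ U, ∀ s ∈ U, c s0 i ≤ c s i := fun i =>
    exists_min_image U (fun s => c s i) hU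
  choose s0 hs0 hs0min using hμ
  set c' : S → Fin m → ℕ := fun s i => c s i - c (s0 i) i with hc'
  have hmin : ∀ i, ∃ s ∈ U, c' s i = 0 := fun i => ⟨s0 i, hs0 i, Nat.sub_self _⟩
  have hsub : (univ.filter fun x : Fin m ↪ Q => NRel (asg x) σ U c) ⊆
      univ.filter fun x : Fin m ↪ Q => NRel (asg x) σ U c' := by
    intro x hx
    rw [mem_filter] at hx ⊢
    exact ⟨mem_univ _, NRel_norm (fun i => hQ _ (x i).2) (fun i => c (s0 i) i)
      (fun i s hs => hs0min i s hs) hx.2⟩
  have hsub' : ((univ.filter fun x : Fin m ↪ Q => NRel (asg x) σ U c).card : ℝ) ≤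
      ((univ.filter fun x : Fin m ↪ Q => NRel (asg x) σ U c').card : ℝ) := by
    exact_mod_cast card_le_card hsub
  refine hsub'.trans ?_
  rw [add_mul]
  have hp1 : (0 : ℝ) ≤ Fintype.card S * ((m : ℝ) / Q.card) ^ (g + 1) *
    Fintype.card (Fin m ↪ Q) := by positivity
  have hp2 : (0 : ℝ) ≤ 2 ^ (4 ^ Fintype.card S) *
    (2 ^ Rf (Fintype.card S - 1) * (6 * g) / w0 : ℝ) ^ w0 *
    Fintype.card (Fin m ↪ Q) := by positivity
  by_cases hA : ∃ i0 ∈ T0, g < (T0.filter fun i' => ∀ s ∈ U, c' s i' = c' s i0).card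
  · -- a popular pattern
    obtain ⟨i0, hi0, hgi⟩ := hA
    set G := T0.filter fun i' => ∀ s ∈ U, c' s i' = c' s i0 with hG
    obtain ⟨s1, hs1, s2, hs2, hne⟩ := (mem_filter.mp (hT0nc hi0)).2
    have hne' : c' s1 i0 ≠ c' s2 i0 := by
      have h1 := hs0min i0 s1 hs1
      have h2 := hs0min i0 s2 hs2
      simp only [hc']
      omega
    have h1 := class_count hQ σ U c' G (fun s => c' s i0)
      (fun i hi s hs => (mem_filter.mp hi).2 s hs) s1 s2 hs1 hs2 hne'
    have hGm : G.card ≤ m := by
      calc G.card ≤ (univ : Finset (Fin m)).card := card_le_univ _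
        _ = m := by simp
    have h2 := desc_ineq1 Q.card m G.card (by omega) hGm
    have hm0 : 0 < m := lt_of_lt_of_le (by omega : 0 < G.card) hGm
    have hN0 : (0 : ℝ) < Q.card := by
      have : 0 < Q.card := by omega
      exact_mod_cast this
    have hcardemb : Fintype.card (Fin m ↪ Q) = Q.card.descFactorial m := by
      rw [Fintype.card_embedding_eq, Fintype.card_coe, Fintype.card_fin]
    have h3 : (G.card.factorial * Q.card.descFactorial (m - G.card) : ℝ) ≤
        ((m : ℝ) / Q.card) ^ G.card * Q.card.descFactorial m := by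
      rw [div_pow, div_mul_eq_mul_div, le_div_iff₀ (pow_pos hN0 _)]
      exact_mod_cast h2
    have h4 : ((m : ℝ) / Q.card) ^ G.card ≤ ((m : ℝ) / Q.card) ^ (g + 1) := by
      apply pow_le_pow_of_le_one (by positivity)
      · rw [div_le_one hN0]
        have : m ≤ Q.card := by omega
        exact_mod_cast this
      · exact hgi
    have hUS : (U.card : ℝ) ≤ Fintype.card S := by exact_mod_cast card_le_univ U
    have h5 : ((univ.filter fun x : Fin m ↪ Q => NRel (asg x) σ U c').card : ℝ) ≤
        Fintype.card S * ((m : ℝ) / Q.card) ^ (g + 1) * Fintype.card (Fin m ↪ Q) := by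
      rw [hcardemb]
      calc ((univ.filter fun x : Fin m ↪ Q => NRel (asg x) σ U c').card : ℝ)
          ≤ U.card * (G.card.factorial * Q.card.descFactorial (m - G.card)) := by
            have : ((univ.filter fun x : Fin m ↪ Q => NRel (asg x) σ U c').card : ℝ) ≤
              ((U.card * G.card.factorial) * (Q.card.descFactorial (m - G.card)) : ℕ) := by
              exact_mod_cast h1
            refine this.trans (le_of_eq ?_)
            push_cast; ring
        _ ≤ Fintype.card S * (((m : ℝ) / Q.card) ^ (g + 1) * Q.card.descFactorial m) := by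
            refine mul_le_mul hUS ?_ (by positivity) (Nat.cast_nonneg _)
            exact h3.trans (mul_le_mul_of_nonneg_right h4 (Nat.cast_nonneg _))
        _ = _ := by ring
    linarith
  · push Not at hA
    have h1 := caseB hQ hmN σ U hU c' hmin T0 g w0 hg hw0 hA hT0
    have h2 : (2 : ℝ) ^ T0.card * (6 * g / w0 : ℝ) ^ w0 =
        (2 ^ Rf (Fintype.card S - 1) * (6 * g) / w0 : ℝ) ^ w0 := by
      rw [hT0, pow_mul, ← mul_pow]
      congr 1; ring
    rw [h2] at h1
    linarith

end Pool.Agent.TH715.SPU
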