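import Pool.Agent.TH715.SPU.Cls

/-!
Nondegenerate relations with unbounded exponents: the ultrametric pairing. At each prime of the
assignment the minimal valuation among the terms (or among sums of blocks of terms) is attained at
least twice; the equalities of valuations of sums of blocks at the primes of a set `W` determine the
exponent patterns on `W` from the rest and from the set of the primes used on `W`.
-/

set_option autoImplicit false
set_option linter.unusedSectionVars false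
open Finset

namespace Pool.Agent.TH715.SPU

variable {S : Type} [Fintype S] [DecidableEq S] {m : ℕ}

/-- valuation -/
def fct (q : ℕ) (a : ℤ) : ℕ := a.natAbs.factorization q

lemma fct_mul {q : ℕ} {a b : ℤ} (ha : a ≠ 0) (hb : b ≠ 0) : fct q (a * b) = fct q a + fct q b := by
  unfold fct
  rw [Int.natAbs_mul, Nat.factorization_mul (Int.natAbs_ne_zero.mpr ha) (Int.natAbs_ne_zero.mpr hb)]
  rfl

lemma V_pos {ι : Type} [Fintype ι] {x : ι → ℕ} (hx : ∀ i, (x i).Prime) (f : ι → ℕ) :
    0 < V x f := by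
  unfold V
  apply Finset.prod_pos
  intro i _
  have : (0 : ℤ) < (x i : ℤ) := by exact_mod_cast (hx i).pos
  exact pow_pos this _

lemma V_natAbs {ι : Type} [Fintype ι] (x : ι → ℕ) (f : ι → ℕ) :
    (V x f).natAbs = ∏ i, x i ^ f i := by
  have : V x f = ((∏ i, x i ^ f i : ℕ) : ℤ) := by unfold V; push_cast; rfl
  rw [this, Int.natAbs_natCast]

lemma fct_V {ι : Type} [Fintype ι] {x : ι → ℕ} (hx : ∀ i, (x i).Prime)
    (f : ι → ℕ) (q : ℕ) :
    fct q (V x f) = ∑ i, if x i = q then f i else 0 := by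
  classical
  unfold fct
  rw [V_natAbs, Nat.factorization_prod_apply (fun i _ => pow_ne_zero _ (hx i).ne_zero)]
  refine Finset.sum_congr rfl fun i _ => ?_
  rw [Nat.factorization_pow, (hx i).factorization]
  simp only [Finsupp.smul_apply, Finsupp.single_apply, smul_eq_mul]
  by_cases hi : x i = q
  · simp [hi]
  · simp [hi]

lemma fct_V_self {ι : Type} [Fintype ι] {x : ι → ℕ} (hx : ∀ i, (x i).Prime)
    (hinj : Function.Injective x) (f : ι → ℕ) (i : ι) :
    fct (x i) (V x f) = f i := by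
  classical
  rw [fct_V hx]
  have : ∀ j, (if x j = x i then f j else 0) = if j = i then f i else 0 := by
    intro j
    by_cases hj : j = i
    · simp [hj]
    · have : x j ≠ x i := fun h' => hj (hinj h')
      simp [hj, this]
  simp_rw [this]
  simp

lemma V_inj {ι : Type} [Fintype ι] {x : ι → ℕ} (hx : ∀ i, (x i).Prime)
    (hinj : Function.Injective x) {f f' : ι → ℕ} (hV : V x f = V x f') : f = f' := by
  funext i
  rw [← fct_V_self hx hinj f i, hV, fct_V_self hx hinj f' i]

lemma eq_of_fct {a b : ℤ} (ha : 0 < a) (hb : 0 < b) (h : ∀ q, fct q a = fct q b) : a = b := by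
  have h1 : a.natAbs = b.natAbs := by
    apply Nat.eq_of_factorization_eq (Int.natAbs_ne_zero.mpr ha.ne')
      (Int.natAbs_ne_zero.mpr hb.ne')
    intro q
    exact h q
  omega

/-- sum of the terms of a block -/
def K (x : Fin m → ℕ) (σ : S → ℤ) (c : S → Fin m → ℕ) (b : Finset S) : ℤ :=
  ∑ s ∈ b, σ s * V x (c s)

/-- blocks connected by the pairs in `𝒱` -/
inductive Con (𝒱 : Finset (Finset S × Finset S)) : Finset S → Prop
  | single (j : S) : Con 𝒱 {j}
  | union (b b' : Finset S) : Con 𝒱 b → Con 𝒱 b' → Disjoint b b' → (b, b') ∈ 𝒱 → Con 𝒱 (b ∪ b')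

lemma Con.nonempty {𝒱 : Finset (Finset S × Finset S)} {b : Finset S} (h : Con 𝒱 b) :
    b.Nonempty := by
  induction h with
  | single j => exact singleton_nonempty j
  | union b b' _ _ _ _ ih _ => exact ih.mono subset_union_left

lemma Con.mono {𝒱 𝒱' : Finset (Finset S × Finset S)} (hsub : 𝒱 ⊆ 𝒱') {b : Finset S}
    (h : Con 𝒱 b) : Con 𝒱' b := by
  induction h with
  | single j => exact Con.single j
  | union b b' _ _ hd hm ih ih' => exact Con.union b b' ih ih' hd (hsub hm)

lemma K_ne {x : Fin m → ℕ} {σ : S → ℤ} {U : Finset S} {c : S → Fin m → ℕ} (h : NRel x σ U c)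
    {b b' : Finset S} (hb : b ⊆ U) (hbn : b.Nonempty) (hb' : b' ⊆ U) (hbn' : b'.Nonempty)
    (hd : Disjoint b b') : K x σ c b ≠ 0 := by
  refine h.2 b hb hbn ?_
  rintro rfl
  obtain ⟨s, hs⟩ := hbn'
  exact (disjoint_left.mp hd (hb' hs)) hs

section det

variable {σ : S → ℤ} {U : Finset S} {c : S → Fin m → ℕ} {x y : Fin m → ℕ}
  {W : Finset (Fin m)} {𝒱 : Finset (Finset S × Finset S)}

lemma det_aux (hx : ∀ i, (x i).Prime) (hy : ∀ i, (y i).Prime)
    (hout : ∀ i ∉ W, x i = y i) (himg : W.image x = W.image y)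
    (hrx : NRel x σ U c) (hry : NRel y σ U c)
    {b b' : Finset S} (hb : b ⊆ U) (hbn : b.Nonempty) (hb' : b' ⊆ U) (hbn' : b'.Nonempty)
    (hd : Disjoint b b')
    (hvx : ∀ i ∈ W, fct (x i) (K x σ c b) = fct (x i) (K x σ c b'))
    (hvy : ∀ i ∈ W, fct (y i) (K y σ c b) = fct (y i) (K y σ c b'))
    (ih : ∀ j ∈ b, ∀ j' ∈ b, V x (c j) * V y (c j') = V y (c j) * V x (c j'))
    (ih' : ∀ j ∈ b', ∀ j' ∈ b', V x (c j) * V y (c j') = V y (c j) * V x (c j'))
    (j : S) (hj : j ∈ b) (j' : S) (hj' : j' ∈ b') :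
    V x (c j) * V y (c j') = V y (c j) * V x (c j') := by
  classical
  have hpx : ∀ f, 0 < V x f := V_pos hx
  have hpy : ∀ f, 0 < V y f := V_pos hy
  have hnx : ∀ f, V x f ≠ 0 := fun f => (hpx f).ne'
  have hny : ∀ f, V y f ≠ 0 := fun f => (hpy f).ne'
  have e1 : K x σ c b * V y (c j) = K y σ c b * V x (c j) := by
    unfold K
    rw [Finset.sum_mul, Finset.sum_mul]
    refine Finset.sum_congr rfl fun s hs => ?_
    have := ih s hs j hj
    calc σ s * V x (c s) * V y (c j) = σ s * (V x (c s) * V y (c j)) := by ring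
      _ = σ s * (V y (c s) * V x (c j)) := by rw [this]
      _ = _ := by ring
  have e2 : K x σ c b' * V y (c j') = K y σ c b' * V x (c j') := by
    unfold K
    rw [Finset.sum_mul, Finset.sum_mul]
    refine Finset.sum_congr rfl fun s hs => ?_
    have := ih' s hs j' hj'
    calc σ s * V x (c s) * V y (c j') = σ s * (V x (c s) * V y (c j')) := by ring
      _ = σ s * (V y (c s) * V x (c j')) := by rw [this]
      _ = _ := by ring
  have k1 : K x σ c b ≠ 0 := K_ne hrx hb hbn hb' hbn' hd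
  have k2 : K x σ c b' ≠ 0 := K_ne hrx hb' hbn' hb hbn hd.symm
  have k3 : K y σ c b ≠ 0 := K_ne hry hb hbn hb' hbn' hd
  have k4 : K y σ c b' ≠ 0 := K_ne hry hb' hbn' hb hbn hd.symm
  apply eq_of_fct (mul_pos (hpx _) (hpy _)) (mul_pos (hpy _) (hpx _))
  intro q
  rw [fct_mul (hnx _) (hny _), fct_mul (hny _) (hnx _)]
  by_cases hq : q ∈ W.image x
  · obtain ⟨i, hi, hiq⟩ := mem_image.mp hq
    have hq' : q ∈ W.image y := himg ▸ hq
    obtain ⟨i', hi', hiq'⟩ := mem_image.mp hq'
    have a1 := congrArg (fct q) e1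
    rw [fct_mul k1 (hny _), fct_mul k3 (hnx _)] at a1
    have a2 := congrArg (fct q) e2
    rw [fct_mul k2 (hny _), fct_mul k4 (hnx _)] at a2
    have a3 := hvx i hi
    rw [hiq] at a3
    have a4 := hvy i' hi'
    rw [hiq'] at a4
    omega
  · have hq' : q ∉ W.image y := himg ▸ hq
    have key : ∀ f : Fin m → ℕ, fct q (V x f) = fct q (V y f) := by
      intro f
      rw [fct_V hx, fct_V hy]
      refine Finset.sum_congr rfl fun i _ => ?_
      by_cases hi : i ∈ W
      · have h1 : x i ≠ q := fun h => hq (mem_image.mpr ⟨i, hi, h⟩)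
        have h2 : y i ≠ q := fun h => hq' (mem_image.mpr ⟨i, hi, h⟩)
        simp [h1, h2]
      · rw [hout i hi]
    rw [key (c j), key (c j')]

/-- the ratios of the terms are determined -/
lemma det (hx : ∀ i, (x i).Prime) (hy : ∀ i, (y i).Prime)
    (hout : ∀ i ∉ W, x i = y i) (himg : W.image x = W.image y)
    (hrx : NRel x σ U c) (hry : NRel y σ U c)
    (hvx : ∀ z ∈ 𝒱, ∀ i ∈ W, fct (x i) (K x σ c z.1) = fct (x i) (K x σ c z.2))
    (hvy : ∀ z ∈ 𝒱, ∀ i ∈ W, fct (y i) (K y σ c z.1) = fct (y i) (K y σ c z.2))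
    {b : Finset S} (hb : Con 𝒱 b) (hbU : b ⊆ U) :
    ∀ j ∈ b, ∀ j' ∈ b, V x (c j) * V y (c j') = V y (c j) * V x (c j') := by
  induction hb with
  | single s =>
    intro j hj j' hj'
    rw [mem_singleton] at hj hj'
    rw [hj, hj', mul_comm]
  | union b b' h1 h2 hd hm ih ih' =>
    have hbU1 : b ⊆ U := subset_union_left.trans hbU
    have hbU2 : b' ⊆ U := subset_union_right.trans hbU
    have i1 := ih hbU1
    have i2 := ih' hbU2
    have main := det_aux hx hy hout himg hrx hry hbU1 h1.nonempty hbU2 h2.nonempty hd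
      (hvx _ hm) (hvy _ hm) i1 i2
    intro j hj j' hj'
    rcases mem_union.mp hj with hj | hj <;> rcases mem_union.mp hj' with hj' | hj'
    · exact i1 j hj j' hj'
    · exact main j hj j' hj'
    · have := main j' hj' j hj
      rw [mul_comm, ← this, mul_comm]
    · exact i2 j hj j' hj'

/-- the pattern at a prime is determined -/
lemma pat_eq (hx : ∀ i, (x i).Prime) (hy : ∀ i, (y i).Prime) (hxi : Function.Injective x)
    (hyi : Function.Injective y)
    (hout : ∀ i ∉ W, x i = y i) (himg : W.image x = W.image y)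
    (hrx : NRel x σ U c) (hry : NRel y σ U c)
    (hvx : ∀ z ∈ 𝒱, ∀ i ∈ W, fct (x i) (K x σ c z.1) = fct (x i) (K x σ c z.2))
    (hvy : ∀ z ∈ 𝒱, ∀ i ∈ W, fct (y i) (K y σ c z.1) = fct (y i) (K y σ c z.2))
    (hU : Con 𝒱 U) (hmin : ∀ i, ∃ s ∈ U, c s i = 0) {i i' : Fin m} (hii : x i = y i') :
    ∀ j ∈ U, c j i = c j i' := by
  have hnx : ∀ f, V x f ≠ 0 := fun f => (V_pos hx f).ne'
  have hny : ∀ f, V y f ≠ 0 := fun f => (V_pos hy f).ne'
  have key : ∀ j ∈ U, ∀ j' ∈ U, c j i + c j' i' = c j i' + c j' i := by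
    intro j hj j' hj'
    have h1 := congrArg (fct (x i)) (det hx hy hout himg hrx hry hvx hvy hU (Subset.refl U) j hj j' hj')
    rw [fct_mul (hnx _) (hny _), fct_mul (hny _) (hnx _), fct_V_self hx hxi, fct_V_self hx hxi,
      hii, fct_V_self hy hyi, fct_V_self hy hyi] at h1
    exact h1
  obtain ⟨s, hs, hs0⟩ := hmin i
  obtain ⟨s', hs', hs0'⟩ := hmin i'
  intro j hj
  have h1 := key j hj s hs
  have h2 := key j hj s' hs'
  omega

end det

end Pool.Agent.TH715.SPU
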