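import Pool.Agent.TH715.SPU.Det

/-!
Existence of a large set of places whose valuations connect all terms.
-/

set_option autoImplicit false
set_option linter.unusedSectionVars false
open Finset

namespace Pool.Agent.TH715.SPU

variable {S : Type} [Fintype S] [DecidableEq S] {m : ℕ}

lemma dvd_iff_fct {q : ℕ} (hq : q.Prime) {a : ℤ} (ha : a ≠ 0) (n : ℕ) :
    ((q : ℤ) ^ n) ∣ a ↔ n ≤ fct q a := by
  unfold fct
  rw [← hq.pow_dvd_iff_le_factorization (Int.natAbs_ne_zero.mpr ha), ← Int.natCast_dvd]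
  push_cast
  rfl

/-- the least valuation is attained twice -/
lemma min_twice {ι : Type} [DecidableEq ι] {q : ℕ} (hq : q.Prime) (P : Finset ι) (f : ι → ℤ)
    (hne : ∀ b ∈ P, f b ≠ 0) (hsum : ∑ b ∈ P, f b = 0) (hP : P.Nonempty) :
    ∃ b ∈ P, ∃ b' ∈ P, b ≠ b' ∧ fct q (f b) = fct q (f b') := by
  obtain ⟨b0, hb0, hmin⟩ := exists_min_image P (fun b => fct q (f b)) hP
  by_contra hc
  push Not at hc
  have h1 : ∀ b ∈ P.erase b0, ((q : ℤ) ^ (fct q (f b0) + 1)) ∣ f b := by
    intro b hb
    have hb' := mem_erase.mp hb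
    rw [dvd_iff_fct hq (hne b hb'.2)]
    have h2 := hmin b hb'.2
    have h3 := hc b hb'.2 b0 hb0 hb'.1
    omega
  have h2 : ((q : ℤ) ^ (fct q (f b0) + 1)) ∣ ∑ b ∈ P.erase b0, f b := dvd_sum h1
  have h3 : ∑ b ∈ P.erase b0, f b = - f b0 := by
    have := Finset.add_sum_erase P f hb0
    rw [hsum] at this
    linarith
  rw [h3, dvd_neg, dvd_iff_fct hq (hne b0 hb0)] at h2
  omega

/-- pairs of blocks with equal valuations at the primes at the places of `W` -/
def Vp (x : Fin m → ℕ) (σ : S → ℤ) (c : S → Fin m → ℕ) (W : Finset (Fin m)) :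
    Finset (Finset S × Finset S) :=
  univ.filter fun z => ∀ i ∈ W, fct (x i) (K x σ c z.1) = fct (x i) (K x σ c z.2)

lemma Vp_mono {x : Fin m → ℕ} {σ : S → ℤ} {c : S → Fin m → ℕ} {W W' : Finset (Fin m)}
    (h : W ⊆ W') : Vp x σ c W' ⊆ Vp x σ c W := by
  intro z hz
  rw [Vp, mem_filter] at hz ⊢
  exact ⟨mem_univ _, fun i hi => hz.2 i (h hi)⟩

/-- loss in the number of places -/
def Rf : ℕ → ℕ
  | 0 => 1
  | t + 1 => (t + 2) * (t + 1) * Rf t

lemma Rf_pos (t : ℕ) : 1 ≤ Rf t := by
  induction t with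
  | zero => exact le_refl _
  | succ t ih =>
    unfold Rf
    exact Nat.one_le_iff_ne_zero.mpr (by positivity)

lemma Rf_mono {s t : ℕ} (h : s ≤ t) : Rf s ≤ Rf t := by
  induction h with
  | refl => exact le_refl _
  | step _ ih =>
    refine ih.trans ?_
    conv_rhs => unfold Rf
    exact Nat.le_mul_of_pos_left _ (by positivity)

lemma exist_aux {x : Fin m → ℕ} (hx : ∀ i, (x i).Prime) {σ : S → ℤ} {U : Finset S}
    {c : S → Fin m → ℕ} (hr : NRel x σ U c) (t : ℕ) :
    ∀ (T0 : Finset (Fin m)) (P : Finset (Finset S)), P.card = t + 1 → P.biUnion id = U →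
      (P : Set (Finset S)).PairwiseDisjoint id → (∀ b ∈ P, Con (Vp x σ c T0) b) →
      ∃ W ⊆ T0, T0.card ≤ Rf t * W.card ∧ Con (Vp x σ c W) U := by
  induction t with
  | zero =>
    intro T0 P hP hU _ hC
    obtain ⟨b, rfl⟩ := card_eq_one.mp hP
    refine ⟨T0, Subset.refl _, by simp [Rf], ?_⟩
    rw [singleton_biUnion] at hU
    rw [← hU]
    exact hC b (mem_singleton_self b)
  | succ t ih =>
    intro T0 P hP hU hd hC
    have hPne : P.Nonempty := card_pos.mp (by omega)
    have hsub : ∀ b ∈ P, b ⊆ U := by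
      intro b hb
      rw [← hU]
      exact subset_biUnion_of_mem id hb
    have hdj : ∀ b ∈ P, ∀ b' ∈ P, b ≠ b' → Disjoint b b' := fun b hb b' hb' hne => hd hb hb' hne
    have hother : ∀ b ∈ P, ∃ b' ∈ P, b ≠ b' := by
      intro b hb
      by_contra hc
      push Not at hc
      have : P.card ≤ 1 := card_le_one.mpr fun a ha b' hb' => by rw [← hc a ha, ← hc b' hb']
      omega
    have hKne : ∀ b ∈ P, K x σ c b ≠ 0 := by
      intro b hb
      obtain ⟨b', hb', hne⟩ := hother b hb
      exact K_ne hr (hsub b hb) (hC b hb).nonempty (hsub b' hb') (hC b' hb').nonempty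
        (hdj b hb b' hb' hne)
    have hKsum : ∑ b ∈ P, K x σ c b = 0 := by
      have h1 : ∑ b ∈ P, K x σ c b = ∑ s ∈ P.biUnion id, σ s * V x (c s) := by
        rw [Finset.sum_biUnion hd]
        rfl
      rw [h1, hU]
      exact hr.1
    let f : Finset S × Finset S → Finset (Fin m) := fun z =>
      T0.filter fun i => fct (x i) (K x σ c z.1) = fct (x i) (K x σ c z.2)
    have hoff : P.offDiag.card = (t + 2) * (t + 1) := by
      rw [offDiag_card, hP]
      have : (t + 1 + 1) * (t + 1 + 1) = (t + 2) * (t + 1) + (t + 1 + 1) := by ring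
      omega
    have hoffne : P.offDiag.Nonempty := card_pos.mp (by rw [hoff]; positivity)
    obtain ⟨z, hz, hmax⟩ := exists_max_image P.offDiag (fun z => (f z).card) hoffne
    have hcov : T0 ⊆ P.offDiag.biUnion f := by
      intro i hi
      obtain ⟨b, hb, b', hb', hne, heq⟩ := min_twice (hx i) P (K x σ c) hKne hKsum hPne
      rw [mem_biUnion]
      exact ⟨(b, b'), mem_offDiag.mpr ⟨hb, hb', hne⟩, mem_filter.mpr ⟨hi, heq⟩⟩
    have hcard : T0.card ≤ (t + 2) * (t + 1) * (f z).card := by
      calc T0.card ≤ (P.offDiag.biUnion f).card := card_le_card hcov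
        _ ≤ ∑ z' ∈ P.offDiag, (f z').card := card_biUnion_le
        _ ≤ ∑ z' ∈ P.offDiag, (f z).card := Finset.sum_le_sum hmax
        _ = _ := by rw [sum_const, hoff, smul_eq_mul]
    obtain ⟨b, b'⟩ := z
    have hz' := mem_offDiag.mp hz
    simp only at hz'
    obtain ⟨hb, hb', hne⟩ := hz'
    have hbd := hdj b hb b' hb' hne
    have hbn := (hC b hb).nonempty
    have hbn' := (hC b' hb').nonempty
    set T1 := f (b, b') with hT1
    have hT1sub : T1 ⊆ T0 := filter_subset _ _
    set P' := insert (b ∪ b') ((P.erase b).erase b') with hP'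
    have hb'e : b' ∈ P.erase b := mem_erase.mpr ⟨hne.symm, hb'⟩
    have hnot : b ∪ b' ∉ (P.erase b).erase b' := by
      intro hc
      have h1 := mem_erase.mp hc
      have h2 := mem_erase.mp h1.2
      have h3 := hdj (b ∪ b') h2.2 b hb h2.1
      obtain ⟨s, hs⟩ := hbn
      exact (disjoint_left.mp h3 (mem_union_left _ hs)) hs
    have hP'card : P'.card = t + 1 := by
      rw [hP', card_insert_of_notMem hnot, card_erase_of_mem hb'e, card_erase_of_mem hb, hP]
      omega
    have hP'U : P'.biUnion id = U := by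
      rw [← hU]
      ext s
      simp only [hP', mem_biUnion, mem_insert, mem_erase, id]
      constructor
      · rintro ⟨d, hd1, hsd⟩
        rcases hd1 with rfl | hd1
        · rcases mem_union.mp hsd with h | h
          · exact ⟨b, hb, h⟩
          · exact ⟨b', hb', h⟩
        · exact ⟨d, hd1.2.2, hsd⟩
      · rintro ⟨d, hd1, hsd⟩
        by_cases h1 : d = b
        · exact ⟨b ∪ b', Or.inl rfl, mem_union_left _ (h1 ▸ hsd)⟩
        · by_cases h2 : d = b'
          · exact ⟨b ∪ b', Or.inl rfl, mem_union_right _ (h2 ▸ hsd)⟩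
          · exact ⟨d, Or.inr ⟨h2, h1, hd1⟩, hsd⟩
    have hP'd : (P' : Set (Finset S)).PairwiseDisjoint id := by
      rw [hP', coe_insert, Set.pairwiseDisjoint_insert]
      refine ⟨?_, ?_⟩
      · intro a ha a' ha' haa
        rw [mem_coe] at ha ha'
        exact hdj a (mem_of_mem_erase (mem_of_mem_erase ha)) a'
          (mem_of_mem_erase (mem_of_mem_erase ha')) haa
      · intro a ha _
        rw [mem_coe] at ha
        have h1 := mem_erase.mp ha
        have h2 := mem_erase.mp h1.2
        simp only [id, disjoint_union_left]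
        exact ⟨hdj b hb a h2.2 (Ne.symm h2.1), hdj b' hb' a h2.2 (Ne.symm h1.1)⟩
    have hC' : ∀ d ∈ P', Con (Vp x σ c T1) d := by
      intro d hd1
      rw [hP', mem_insert] at hd1
      rcases hd1 with rfl | hd1
      · refine Con.union b b' ((hC b hb).mono (Vp_mono hT1sub)) ((hC b' hb').mono (Vp_mono hT1sub))
          hbd ?_
        rw [Vp, mem_filter]
        refine ⟨mem_univ _, ?_⟩
        intro i hi
        rw [hT1] at hi
        exact (mem_filter.mp hi).2
      · exact (hC d (mem_of_mem_erase (mem_of_mem_erase hd1))).mono (Vp_mono hT1sub)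
    obtain ⟨W, hW, hWc, hWC⟩ := ih T1 P' hP'card hP'U hP'd hC'
    refine ⟨W, hW.trans hT1sub, ?_, hWC⟩
    calc T0.card ≤ (t + 2) * (t + 1) * T1.card := hcard
      _ ≤ (t + 2) * (t + 1) * (Rf t * W.card) := Nat.mul_le_mul_left _ hWc
      _ = Rf (t + 1) * W.card := by
          conv_rhs => unfold Rf
          ring

lemma exist_W {x : Fin m → ℕ} (hx : ∀ i, (x i).Prime) {σ : S → ℤ} {U : Finset S}
    {c : S → Fin m → ℕ} (hr : NRel x σ U c) (hU : U.Nonempty) (T0 : Finset (Fin m)) :
    ∃ W ⊆ T0, T0.card ≤ Rf (U.card - 1) * W.card ∧ Con (Vp x σ c W) U := by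
  classical
  have hcard : (U.image fun s => ({s} : Finset S)).card = U.card :=
    card_image_of_injective _ fun a b h => by simpa using h
  refine exist_aux hx hr (U.card - 1) T0 (U.image fun s => ({s} : Finset S)) ?_ ?_ ?_ ?_
  · rw [hcard]
    have := hU.card_pos
    omega
  · ext s
    simp only [mem_biUnion, mem_image, id]
    constructor
    · rintro ⟨d, ⟨s', hs', rfl⟩, hsd⟩
      rw [mem_singleton] at hsd
      rw [hsd]; exact hs'
    · intro hs
      exact ⟨{s}, ⟨s, hs, rfl⟩, mem_singleton_self s⟩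
  · intro a ha b hb hab
    rw [mem_coe, mem_image] at ha hb
    obtain ⟨s, _, rfl⟩ := ha
    obtain ⟨s', _, rfl⟩ := hb
    change Disjoint ({s} : Finset S) {s'}
    rw [disjoint_singleton]
    rintro rfl
    exact hab rfl
  · intro b hb
    obtain ⟨s, _, rfl⟩ := mem_image.mp hb
    exact Con.single s

end Pool.Agent.TH715.SPU
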