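import Pool.Agent.TH715.SPU.Thr

/-!
The final theorems for unbounded exponents.
-/

set_option autoImplicit false
set_option linter.unusedSectionVars false
open Finset

namespace Pool.Agent.TH715.SPU

variable {m k : ℕ}

lemma dst_self (u : Fin m → ℕ) : dst u u = 0 := by
  unfold dst; simp

lemma dst_pos {u v : Fin m → ℕ} (h : u ≠ v) : 1 ≤ dst u v := by
  unfold dst
  rw [Nat.one_le_iff_ne_zero]
  intro hc
  rw [card_eq_zero, filter_eq_empty_iff] at hc
  apply h
  funext i
  by_contra hi
  exact hc (mem_univ i) hi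

lemma dst_comm (u v : Fin m → ℕ) : dst u v = dst v u := by
  unfold dst
  congr 1
  ext i
  simp only [mem_filter, mem_univ, true_and]
  exact ne_comm

/-- the bound for all subsets, for a good assignment -/
lemma good_bound {Q : Finset ℕ} (hQ : ∀ p ∈ Q, p.Prime) {M0 : ℕ} (hM0 : 1 ≤ M0) (hk : 1 ≤ k)
    {E : Finset (Fin m → ℕ)} {x : Fin m ↪ Q} (hx : GoodX k M0 E x) (hE2 : 2 ≤ E.card)
    (B Λ : ℝ) (hB : 0 < B)
    (hM : M0 = 1 ∨ ((M0 : ℝ) ≤ B * Real.log E.card / Λ ∧ 0 < Λ))
    (F : Finset (Fin m → ℕ)) (hF : F ⊆ E) (hFn : F.Nonempty) :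
    ((2 * (k : ℝ) ^ 2) ^ k)⁻¹ * (F.card : ℝ) ^ k *
      (E.card : ℝ) ^ (-(110 * Real.sqrt ((k : ℝ) ^ 3 * B) / Real.sqrt Λ)) ≤
      max ((SS k (F.image fun f => V (asg x) f)).card : ℝ)
        ((PP k (F.image fun f => V (asg x) f)).card : ℝ) := by
  classical
  have hk0 : (1 : ℝ) ≤ k := by exact_mod_cast hk
  have hE1 : (1 : ℝ) ≤ E.card := by
    have : 1 ≤ E.card := by omega
    exact_mod_cast this
  have hE0 : (0 : ℝ) < E.card := by linarith
  have hF0 : (0 : ℝ) < F.card := by exact_mod_cast hFn.card_pos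
  have hrp : (E.card : ℝ) ^ (-(110 * Real.sqrt ((k : ℝ) ^ 3 * B) / Real.sqrt Λ)) ≤ 1 := by
    apply Real.rpow_le_one_of_one_le_of_nonpos hE1
    have : 0 ≤ 110 * Real.sqrt ((k : ℝ) ^ 3 * B) / Real.sqrt Λ := by positivity
    linarith
  have hrp0 : 0 < (E.card : ℝ) ^ (-(110 * Real.sqrt ((k : ℝ) ^ 3 * B) / Real.sqrt Λ)) :=
    Real.rpow_pos_of_pos hE0 _
  have hS : (1 : ℝ) ≤ ((SS k (F.image fun f => V (asg x) f)).card : ℝ) := by
    have : 0 < (SS k (F.image fun f => V (asg x) f)).card := by
      apply card_pos.mpr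
      unfold SS
      apply Finset.Nonempty.image
      rw [Fintype.piFinset_nonempty]
      intro _
      exact hFn.image _
    exact_mod_cast this
  have hfar : (F.card : ℝ) ^ k ≤ 2 * (k : ℝ) ^ k * (SS k (F.image fun f => V (asg x) f)).card →
      ((2 * (k : ℝ) ^ 2) ^ k)⁻¹ * (F.card : ℝ) ^ k *
      (E.card : ℝ) ^ (-(110 * Real.sqrt ((k : ℝ) ^ 3 * B) / Real.sqrt Λ)) ≤
      max ((SS k (F.image fun f => V (asg x) f)).card : ℝ)
        ((PP k (F.image fun f => V (asg x) f)).card : ℝ) := by
    intro h1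
    refine le_trans ?_ (le_max_left _ _)
    have h2 : 2 * (k : ℝ) ^ k ≤ (2 * (k : ℝ) ^ 2) ^ k := by
      rw [mul_pow]
      have h3 : (2 : ℝ) ≤ 2 ^ k := by
        calc (2 : ℝ) = 2 ^ 1 := by norm_num
          _ ≤ 2 ^ k := pow_le_pow_right₀ (by norm_num) hk
      have h4 : (k : ℝ) ^ k ≤ ((k : ℝ) ^ 2) ^ k := by
        apply pow_le_pow_left₀ (by positivity)
        nlinarith
      exact mul_le_mul h3 h4 (by positivity) (by positivity)
    calc ((2 * (k : ℝ) ^ 2) ^ k)⁻¹ * (F.card : ℝ) ^ k *
        (E.card : ℝ) ^ (-(110 * Real.sqrt ((k : ℝ) ^ 3 * B) / Real.sqrt Λ))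
        ≤ ((2 * (k : ℝ) ^ 2) ^ k)⁻¹ * (F.card : ℝ) ^ k * 1 :=
          mul_le_mul_of_nonneg_left hrp (by positivity)
      _ = ((2 * (k : ℝ) ^ 2) ^ k)⁻¹ * (F.card : ℝ) ^ k := mul_one _
      _ ≤ ((2 * (k : ℝ) ^ 2) ^ k)⁻¹ *
          ((2 * (k : ℝ) ^ 2) ^ k * (SS k (F.image fun f => V (asg x) f)).card) := by
          refine mul_le_mul_of_nonneg_left (h1.trans ?_) (by positivity)
          exact mul_le_mul_of_nonneg_right h2 (Nat.cast_nonneg _)
      _ = _ := by field_simp
  have hsmall : (F.card : ℝ) < 2 * (k : ℝ) ^ 2 →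
      ((2 * (k : ℝ) ^ 2) ^ k)⁻¹ * (F.card : ℝ) ^ k *
      (E.card : ℝ) ^ (-(110 * Real.sqrt ((k : ℝ) ^ 3 * B) / Real.sqrt Λ)) ≤
      max ((SS k (F.image fun f => V (asg x) f)).card : ℝ)
        ((PP k (F.image fun f => V (asg x) f)).card : ℝ) := by
    intro h1
    refine le_trans ?_ (hS.trans (le_max_left _ _))
    calc ((2 * (k : ℝ) ^ 2) ^ k)⁻¹ * (F.card : ℝ) ^ k *
        (E.card : ℝ) ^ (-(110 * Real.sqrt ((k : ℝ) ^ 3 * B) / Real.sqrt Λ))
        ≤ ((2 * (k : ℝ) ^ 2) ^ k)⁻¹ * (F.card : ℝ) ^ k * 1 :=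
          mul_le_mul_of_nonneg_left hrp (by positivity)
      _ = ((2 * (k : ℝ) ^ 2) ^ k)⁻¹ * (F.card : ℝ) ^ k := mul_one _
      _ ≤ 1 := by
          rw [inv_mul_le_iff₀ (by positivity), mul_one]
          exact pow_le_pow_left₀ hF0.le h1.le k
  rcases hM with hM1 | ⟨hMle, hΛ⟩
  · subst hM1
    by_cases h1 : (F.card : ℝ) < 2 * (k : ℝ) ^ 2
    · exact hsmall h1
    · push Not at h1
      apply hfar
      have h2 := far_sum hQ hx F hF 1 (by
        intro u _
        apply card_le_one.mpr
        intro a ha b hb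
        have ha' := (mem_filter.mp ha).2
        have hb' := (mem_filter.mp hb).2
        have e1 : u = a := by
          by_contra hc
          have := dst_pos hc
          omega
        have e2 : u = b := by
          by_contra hc
          have := dst_pos hc
          omega
        rw [← e1, ← e2]) (by
        rw [mul_one]
        exact_mod_cast h1)
      exact_mod_cast h2
  · rcases dichotomy hQ hM0 hk hx F hF with h1 | h1 | ⟨b, hb2, hbM, hMb, hX⟩
    · exact hfar h1
    · exact hsmall h1
    · refine le_trans ?_ hX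
      have hb0 : (0 : ℝ) < b := by
        have : 0 < b := by omega
        exact_mod_cast this
      set L := Real.log E.card with hL
      have hL0 : 0 ≤ L := Real.log_nonneg hE1
      have hlb : Real.log b ≤ L := by
        apply Real.log_le_log hb0
        have : b ≤ E.card := hbM.trans (card_le_card hF)
        exact_mod_cast this
      have hlb0 : 0 ≤ Real.log b := Real.log_natCast_nonneg b
      have h2 : Real.sqrt ((k : ℝ) ^ 3 * M0 * Real.log b) ≤
          Real.sqrt ((k : ℝ) ^ 3 * B) / Real.sqrt Λ * L := by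
        have h3 : (k : ℝ) ^ 3 * M0 * Real.log b ≤ (k : ℝ) ^ 3 * B / Λ * L ^ 2 := by
          calc (k : ℝ) ^ 3 * M0 * Real.log b ≤ (k : ℝ) ^ 3 * (B * L / Λ) * L := by
                refine mul_le_mul ?_ hlb hlb0 (by positivity)
                exact mul_le_mul_of_nonneg_left hMle (by positivity)
            _ = _ := by ring
        calc Real.sqrt ((k : ℝ) ^ 3 * M0 * Real.log b)
            ≤ Real.sqrt ((k : ℝ) ^ 3 * B / Λ * L ^ 2) := Real.sqrt_le_sqrt h3
          _ = _ := by
              rw [Real.sqrt_mul (by positivity), Real.sqrt_sq hL0, Real.sqrt_div (by positivity)]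
      have h4 : (E.card : ℝ) ^ (-(110 * Real.sqrt ((k : ℝ) ^ 3 * B) / Real.sqrt Λ)) ≤
          Real.exp (-(110 * Real.sqrt ((k : ℝ) ^ 3 * M0 * Real.log b))) := by
        rw [Real.rpow_def_of_pos hE0]
        apply Real.exp_le_exp.mpr
        have h5 := mul_le_mul_of_nonneg_left h2 (by norm_num : (0:ℝ) ≤ 110)
        have h6 : L * -(110 * Real.sqrt ((k : ℝ) ^ 3 * B) / Real.sqrt Λ) =
            -(110 * (Real.sqrt ((k : ℝ) ^ 3 * B) / Real.sqrt Λ * L)) := by ring
        rw [← hL, h6]
        linarith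
      refine mul_le_mul ?_ h4 hrp0.le (by positivity)
      rw [inv_mul_le_iff₀ (by positivity), ← mul_pow]
      exact pow_le_pow_left₀ hF0.le hMb k

open Classical in
/-- the `k`-fold theorem for unbounded exponents -/
theorem finalU (k : ℕ) (hk : 1 ≤ k) :
    ∃ C c : ℝ, 0 < C ∧ 0 < c ∧ ∀ (m : ℕ) (E : Finset (Fin m → ℕ)), E.Nonempty →
      ∀ Q : Finset ℕ, (∀ p ∈ Q, p.Prime) → 16 * m ≤ Q.card →
      ((univ.filter fun x : Fin m ↪ Q => ¬ ∀ F ⊆ E, F.Nonempty →
          c * (F.card : ℝ) ^ k *
            (E.card : ℝ) ^ (-(C / Real.sqrt (Real.log (Real.log ((Q.card : ℝ) / m))))) ≤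
            max ((SS k (F.image fun f => V (asg x) f)).card : ℝ)
              ((PP k (F.image fun f => V (asg x) f)).card : ℝ)).card : ℝ) ≤
        (Fintype.card (Fin m ↪ Q) : ℝ) / E.card := by
  obtain ⟨B, hB, hthr⟩ := threshold k hk
  have hk0 : (0 : ℝ) < k := by exact_mod_cast hk
  refine ⟨110 * Real.sqrt ((k : ℝ) ^ 3 * B), ((2 * (k : ℝ) ^ 2) ^ k)⁻¹, by positivity,
    by positivity, ?_⟩
  intro m E hE Q hQ hCm
  by_cases hE1 : E.card = 1
  · rw [hE1]
    simp only [Nat.cast_one, div_one]
    rw [← card_univ]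
    exact_mod_cast card_filter_le _ _
  have hE2 : 2 ≤ E.card := by
    have := hE.card_pos
    omega
  obtain ⟨M0, hM0, hM, hprob⟩ := hthr m E hE2 Q hQ hCm
  refine le_trans ?_ hprob
  have : (univ.filter fun x : Fin m ↪ Q => ¬ ∀ F ⊆ E, F.Nonempty →
          ((2 * (k : ℝ) ^ 2) ^ k)⁻¹ * (F.card : ℝ) ^ k *
            (E.card : ℝ) ^ (-(110 * Real.sqrt ((k : ℝ) ^ 3 * B) /
              Real.sqrt (Real.log (Real.log ((Q.card : ℝ) / m))))) ≤
            max ((SS k (F.image fun f => V (asg x) f)).card : ℝ)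
              ((PP k (F.image fun f => V (asg x) f)).card : ℝ)) ⊆
      univ.filter fun x : Fin m ↪ Q => ¬ GoodX k M0 E x := by
    intro x hx
    rw [mem_filter] at hx ⊢
    refine ⟨mem_univ _, fun hg => hx.2 ?_⟩
    intro F hF hFn
    exact good_bound hQ hM0 hk hg hE2 B _ hB hM F hF hFn
  exact_mod_cast card_le_card this

open scoped Pointwise

lemma SS_two (A : Finset ℤ) : SS 2 A = A + A := by
  unfold SS
  ext x
  simp only [Finset.mem_image, Fintype.mem_piFinset, Finset.mem_add, Fin.sum_univ_two]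
  constructor
  · rintro ⟨f, hf, rfl⟩
    exact ⟨f 0, hf 0, f 1, hf 1, rfl⟩
  · rintro ⟨a, ha, b, hb, rfl⟩
    exact ⟨![a, b], by intro i; fin_cases i <;> simp [ha, hb], by simp⟩

lemma PP_two (A : Finset ℤ) : PP 2 A = A * A := by
  unfold PP
  ext x
  simp only [Finset.mem_image, Fintype.mem_piFinset, Finset.mem_mul, Fin.prod_univ_two]
  constructor
  · rintro ⟨f, hf, rfl⟩
    exact ⟨f 0, hf 0, f 1, hf 1, rfl⟩
  · rintro ⟨a, ha, b, hb, rfl⟩
    exact ⟨![a, b], by intro i; fin_cases i <;> simp [ha, hb], by simp⟩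

/-- two-fold sums: if at most `b` elements of `F` are close to each element of `F` -/
lemma far_two {Q : Finset ℕ} (hQ : ∀ p ∈ Q, p.Prime) {M0 : ℕ} (hM0 : 1 ≤ M0)
    {E : Finset (Fin m → ℕ)} {x : Fin m ↪ Q} (hx : GoodX 2 M0 E x)
    (F : Finset (Fin m → ℕ)) (hF : F ⊆ E) (b : ℕ)
    (hb : ∀ u ∈ F, (F.filter fun v => dst u v < M0).card ≤ b) :
    (F.card : ℝ) * (F.card - b) ≤ 2 * (((F.image fun f => V (asg x) f) +
      (F.image fun f => V (asg x) f)).card : ℝ) := by
  classical
  set A := F.image fun f => V (asg x) f with hA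
  let farT := (F ×ˢ F).filter fun z => M0 ≤ dst z.1 z.2
  have hsplit : F.card * F.card ≤ farT.card + F.card * b := by
    have h1 : (F ×ˢ F).card = farT.card +
        ((F ×ˢ F).filter fun z => ¬ M0 ≤ dst z.1 z.2).card :=
      (card_filter_add_card_filter_not (s := F ×ˢ F) (fun z => M0 ≤ dst z.1 z.2)).symm
    have h2 : ((F ×ˢ F).filter fun z => ¬ M0 ≤ dst z.1 z.2).card ≤ F.card * b := by
      have h3 : ((F ×ˢ F).filter fun z => ¬ M0 ≤ dst z.1 z.2) ⊆
          F.biUnion fun u => (F.filter fun v => dst u v < M0).image fun v => (u, v) := by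
        intro z hz
        have hz' := mem_filter.mp hz
        have hz'' := mem_product.mp hz'.1
        rw [mem_biUnion]
        refine ⟨z.1, hz''.1, mem_image.mpr ⟨z.2, mem_filter.mpr ⟨hz''.2, ?_⟩, rfl⟩⟩
        exact not_le.mp hz'.2
      refine (card_le_card h3).trans (card_biUnion_le.trans ?_)
      refine (Finset.sum_le_sum fun u hu => (card_image_le.trans (hb u hu))).trans ?_
      rw [sum_const, smul_eq_mul]
    rw [card_product] at h1
    omega
  have hfib : ∀ n ∈ A + A,
      (farT.filter fun z => V (asg x) z.1 + V (asg x) z.2 = n).card ≤ 2 := by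
    intro n _
    set R := farT.filter fun z => V (asg x) z.1 + V (asg x) z.2 = n with hR
    by_cases hne : R.Nonempty
    swap
    · rw [Finset.not_nonempty_iff_eq_empty.mp hne]; simp
    obtain ⟨z0, hz0⟩ := hne
    have hz0' := mem_filter.mp hz0
    have hz0'' := mem_filter.mp hz0'.1
    have hz0m := mem_product.mp hz0''.1
    calc R.card ≤ ({z0, (z0.2, z0.1)} : Finset _).card := by
          apply card_le_card
          intro z hz
          have hz' := mem_filter.mp hz
          have hz'' := mem_filter.mp hz'.1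
          have hzm := mem_product.mp hz''.1
          have hff := far_fiber hQ hx ![z0.1, z0.2] ![z.1, z.2]
            (by intro i; fin_cases i
                · exact hF hz0m.1
                · exact hF hz0m.2)
            (by intro i; fin_cases i
                · exact hF hzm.1
                · exact hF hzm.2)
            (by intro i j hij
                fin_cases i <;> fin_cases j
                · exact absurd rfl hij
                · exact hz0''.2
                · change M0 ≤ dst z0.2 z0.1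
                  rw [dst_comm]; exact hz0''.2
                · exact absurd rfl hij)
            (by intro i j hij
                fin_cases i <;> fin_cases j
                · exact absurd rfl hij
                · exact hz''.2
                · change M0 ≤ dst z.2 z.1
                  rw [dst_comm]; exact hz''.2
                · exact absurd rfl hij)
            (by
              rw [Fin.sum_univ_two, Fin.sum_univ_two]
              exact hz0'.2.trans hz'.2.symm)
          have hne12 : z.1 ≠ z.2 := by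
            intro h
            have := hz''.2
            rw [h, dst_self] at this
            omega
          obtain ⟨i, hi⟩ := hff 0
          obtain ⟨j, hj⟩ := hff 1
          change z.1 = _ at hi
          change z.2 = _ at hj
          rw [mem_insert, mem_singleton]
          fin_cases i <;> fin_cases j
          · exact absurd (hi.trans hj.symm) hne12
          · left; exact Prod.ext hi hj
          · right; exact Prod.ext hi hj
          · exact absurd (hi.trans hj.symm) hne12
      _ ≤ 2 := card_le_two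
  have hmaps : ∀ z ∈ farT, V (asg x) z.1 + V (asg x) z.2 ∈ A + A := by
    intro z hz
    have hz' := mem_product.mp (mem_filter.mp hz).1
    exact add_mem_add (mem_image_of_mem _ hz'.1) (mem_image_of_mem _ hz'.2)
  have h5 := Finset.card_le_mul_card_image_of_maps_to (s := farT) (t := A + A)
    (f := fun z => V (asg x) z.1 + V (asg x) z.2) hmaps 2 hfib
  have h6 : F.card * F.card ≤ 2 * (A + A).card + F.card * b := by omega
  have h7 : (F.card : ℝ) * F.card ≤ 2 * (A + A).card + F.card * b := by exact_mod_cast h6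
  linarith

open Classical in
/-- the two-fold theorem for unbounded exponents -/
theorem finalU2 :
    ∃ C c : ℝ, 0 < C ∧ 0 < c ∧ ∀ (m : ℕ) (E : Finset (Fin m → ℕ)), E.Nonempty →
      ∀ Q : Finset ℕ, (∀ p ∈ Q, p.Prime) → 16 * m ≤ Q.card →
      ((univ.filter fun x : Fin m ↪ Q => ¬ ∀ F ⊆ E, F.Nonempty →
          c * (F.card : ℝ) ^ 2 *
            (E.card : ℝ) ^ (-(C / Real.sqrt (Real.log (Real.log ((Q.card : ℝ) / m))))) ≤
            max (((F.image fun f => V (asg x) f) + (F.image fun f => V (asg x) f)).card : ℝ)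
              (((F.image fun f => V (asg x) f) * (F.image fun f => V (asg x) f)).card : ℝ) ∧
          ∀ b : ℕ, (∀ u ∈ F, (F.filter fun v => ((univ.filter fun i => u i ≠ v i).card : ℝ) ≤
              C * Real.log E.card / Real.log (Real.log ((Q.card : ℝ) / m))).card ≤ b) →
            (F.card : ℝ) * (F.card - b) ≤ 2 * (((F.image fun f => V (asg x) f) +
              (F.image fun f => V (asg x) f)).card : ℝ)).card : ℝ) ≤
        (Fintype.card (Fin m ↪ Q) : ℝ) / E.card := by
  obtain ⟨B, hB, hthr⟩ := threshold 2 (by norm_num)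
  obtain ⟨C1, hC1⟩ : ∃ C1 : ℝ, C1 = 110 * Real.sqrt (((2 : ℕ) : ℝ) ^ 3 * B) := ⟨_, rfl⟩
  have hC10 : 0 < C1 := by rw [hC1]; positivity
  refine ⟨max C1 B, ((2 * ((2 : ℕ) : ℝ) ^ 2) ^ 2)⁻¹, lt_max_of_lt_left hC10,
    by positivity, ?_⟩
  intro m E hE Q hQ hCm
  by_cases hE1 : E.card = 1
  · rw [hE1]
    simp only [Nat.cast_one, div_one]
    rw [← card_univ]
    exact_mod_cast card_filter_le _ _
  have hE2 : 2 ≤ E.card := by
    have := hE.card_pos
    omega
  have hE1' : (1 : ℝ) ≤ E.card := by
    have : 1 ≤ E.card := by omega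
    exact_mod_cast this
  have hm1 : 1 ≤ m := by
    by_contra hc
    have hm0 : m = 0 := by omega
    subst hm0
    have : E.card ≤ 1 := by
      apply card_le_one.mpr
      intro a _ b _
      exact Subsingleton.elim a b
    omega
  have hm0 : (0 : ℝ) < m := by exact_mod_cast hm1
  have hν16 : 16 ≤ (Q.card : ℝ) / m := by
    rw [le_div_iff₀ hm0]
    exact_mod_cast hCm
  obtain ⟨M0, hM0, hM, hprob⟩ := hthr m E hE2 Q hQ hCm
  set Λ := Real.log (Real.log ((Q.card : ℝ) / m)) with hΛ
  have hΛ0 : 0 < Λ := by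
    have h1 := e_le_log hν16
    have h2 : 1 ≤ Λ := by
      rw [hΛ, Real.le_log_iff_exp_le (lt_of_lt_of_le (Real.exp_pos 1) h1)]
      exact h1
    linarith
  refine le_trans ?_ hprob
  have : (univ.filter fun x : Fin m ↪ Q => ¬ ∀ F ⊆ E, F.Nonempty →
          ((2 * ((2 : ℕ) : ℝ) ^ 2) ^ 2)⁻¹ * (F.card : ℝ) ^ 2 *
            (E.card : ℝ) ^ (-(max C1 B / Real.sqrt Λ)) ≤
            max (((F.image fun f => V (asg x) f) + (F.image fun f => V (asg x) f)).card : ℝ)
              (((F.image fun f => V (asg x) f) * (F.image fun f => V (asg x) f)).card : ℝ) ∧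
          ∀ b : ℕ, (∀ u ∈ F, (F.filter fun v => ((univ.filter fun i => u i ≠ v i).card : ℝ) ≤
              max C1 B * Real.log E.card / Λ).card ≤ b) →
            (F.card : ℝ) * (F.card - b) ≤ 2 * (((F.image fun f => V (asg x) f) +
              (F.image fun f => V (asg x) f)).card : ℝ)) ⊆
      univ.filter fun x : Fin m ↪ Q => ¬ GoodX 2 M0 E x := by
    intro x hx
    rw [mem_filter] at hx ⊢
    refine ⟨mem_univ _, fun hg => hx.2 ?_⟩
    intro F hF hFn
    constructor
    · have h1 := good_bound hQ hM0 (by norm_num) hg hE2 B _ hB hM F hF hFn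
      rw [SS_two, PP_two, ← hC1] at h1
      refine le_trans ?_ h1
      refine mul_le_mul_of_nonneg_left ?_ (by positivity)
      apply Real.rpow_le_rpow_of_exponent_le hE1'
      apply neg_le_neg
      exact div_le_div_of_nonneg_right (le_max_left _ _) (Real.sqrt_nonneg _)
    · intro b hb
      apply far_two hQ hM0 hg F hF b
      intro u hu
      refine le_trans (card_le_card ?_) (hb u hu)
      intro v hv
      rw [mem_filter] at hv ⊢
      refine ⟨hv.1, ?_⟩
      have hv2 := hv.2
      unfold dst at hv2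
      have hlog : 0 ≤ Real.log E.card := Real.log_nonneg hE1'
      rcases hM with hM1 | ⟨hMle, _⟩
      · have h0 : (univ.filter fun i => u i ≠ v i).card = 0 := by omega
        rw [h0]
        have : 0 ≤ max C1 B * Real.log E.card / Λ := by positivity
        simpa using this
      · have h1 : ((univ.filter fun i => u i ≠ v i).card : ℝ) ≤ M0 := by exact_mod_cast hv2.le
        refine h1.trans (hMle.trans ?_)
        apply div_le_div_of_nonneg_right _ hΛ0.le
        exact mul_le_mul_of_nonneg_right (le_max_right _ _) hlog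
  exact_mod_cast card_le_card this

end Pool.Agent.TH715.SPU
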