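import Pool.Agent.TH715.SPU.Close

/-!
Choice of the parameters.
-/

set_option autoImplicit false
set_option linter.unusedSectionVars false
open Finset

namespace Pool.Agent.TH715.SPU

lemma log_le_sqrt {t : ℝ} (ht : 0 < t) : Real.log t ≤ Real.sqrt t := by
  set u := Real.sqrt (Real.sqrt t) with hu
  have h0 : 0 < Real.sqrt t := Real.sqrt_pos.mpr ht
  have h1 : 0 < u := Real.sqrt_pos.mpr h0
  have h2 : u ^ 2 = Real.sqrt t := Real.sq_sqrt h0.le
  have h3 : t = u ^ 4 := by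
    rw [show u ^ 4 = (u ^ 2) ^ 2 by ring, h2, Real.sq_sqrt ht.le]
  have h4 : Real.log t = 4 * Real.log u := by
    conv_lhs => rw [h3]
    rw [Real.log_pow]; norm_num
  have h5 := Real.log_le_sub_one_of_pos h1
  rw [h4, ← h2]
  nlinarith [sq_nonneg (u - 2)]

lemma e_le_log {ν : ℝ} (hν : 16 ≤ ν) : Real.exp 1 ≤ Real.log ν := by
  have h1 : Real.log 16 ≤ Real.log ν := Real.log_le_log (by norm_num) hν
  have h2 : Real.log 16 = 4 * Real.log 2 := by
    rw [show (16 : ℝ) = 2 ^ 4 by norm_num, Real.log_pow]; norm_num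
  have h3 := Real.log_two_gt_d9
  have h4 := Real.exp_one_lt_d9
  linarith

/-- absorbing a constant -/
lemma absorb {X L : ℝ} (hX : 1 ≤ X) (hL : Real.log 2 ≤ L) :
    Real.exp (-(Real.log X / Real.log 2 * L)) ≤ X⁻¹ := by
  have hlog2 : 0 < Real.log 2 := Real.log_pos (by norm_num)
  have hX0 : 0 < X := by linarith
  have h1 : Real.log X ≤ Real.log X / Real.log 2 * L := by
    rw [div_mul_eq_mul_div, le_div_iff₀ hlog2]
    exact mul_le_mul_of_nonneg_left hL (Real.log_nonneg hX)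
  calc Real.exp (-(Real.log X / Real.log 2 * L)) ≤ Real.exp (-Real.log X) :=
        Real.exp_le_exp.mpr (by linarith)
    _ = X⁻¹ := by rw [Real.exp_neg, Real.exp_log hX0]

/-- exponent for popular patterns -/
noncomputable def A1 (k : ℕ) : ℝ := (2 * k + 1) + Real.log (4 ^ k * (4 * k)) / Real.log 2

lemma A1_pos {k : ℕ} (hk : 1 ≤ k) : 1 ≤ A1 k := by
  have hlog2 : 0 < Real.log 2 := Real.log_pos (by norm_num)
  have hk0 : (1 : ℝ) ≤ k := by exact_mod_cast hk
  have h1 : (1 : ℝ) ≤ 4 ^ k := one_le_pow₀ (by norm_num)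
  have h2 : 0 ≤ Real.log ((4 : ℝ) ^ k * (4 * k)) := Real.log_nonneg (by nlinarith)
  unfold A1
  have : 0 ≤ Real.log ((4 : ℝ) ^ k * (4 * k)) / Real.log 2 := by positivity
  linarith

lemma params (k : ℕ) (hk : 1 ≤ k) : ∃ B : ℝ, 0 < B ∧ ∀ L ν : ℝ, Real.log 2 ≤ L → 16 ≤ ν →
    Real.log ν < A1 k * L → ∃ g w0 : ℕ, 6 * g ≤ w0 ∧ 1 ≤ w0 ∧
      (w0 : ℝ) ≤ B * L / Real.log (Real.log ν) ∧
      (4 : ℝ) ^ k * Real.exp (2 * k * L) * (2 * k * (ν⁻¹) ^ (g + 1) +
        2 ^ (4 ^ (2 * k)) * (2 ^ RK k * (6 * g) / w0 : ℝ) ^ w0) ≤ Real.exp (-L) := by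
  have hlog2 : 0 < Real.log 2 := Real.log_pos (by norm_num)
  have hk0 : (1 : ℝ) ≤ k := by exact_mod_cast hk
  have h4k : (1 : ℝ) ≤ 4 ^ k := one_le_pow₀ (by norm_num)
  have hA1 := A1_pos hk
  obtain ⟨X2, hX2⟩ : ∃ X2 : ℝ, X2 = 4 ^ k * 2 * 2 ^ (4 ^ (2 * k)) := ⟨_, rfl⟩
  have hX21 : 1 ≤ X2 := by
    rw [hX2]
    have : (1 : ℝ) ≤ 2 ^ (4 ^ (2 * k)) := one_le_pow₀ (by norm_num)
    nlinarith
  obtain ⟨A2, hA2⟩ : ∃ A2 : ℝ, A2 = (2 * k + 1) + Real.log X2 / Real.log 2 := ⟨_, rfl⟩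
  have hA20 : 0 < A2 := by
    have : 0 ≤ Real.log X2 / Real.log 2 := div_nonneg (Real.log_nonneg hX21) hlog2.le
    rw [hA2]; positivity
  obtain ⟨B0, hB0⟩ : ∃ B0 : ℝ, B0 = 2 ^ RK k * 6 * A1 k + 2 * A2 := ⟨_, rfl⟩
  have hB0pos : 0 < B0 := by rw [hB0]; positivity
  have hB01 : 2 ^ RK k * 6 * A1 k ≤ B0 := by rw [hB0]; linarith
  have hB02 : 2 * A2 ≤ B0 := by
    rw [hB0]
    have : (0 : ℝ) ≤ 2 ^ RK k * 6 * A1 k := by positivity
    linarith
  refine ⟨B0 + A1 k, by positivity, ?_⟩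
  intro L ν hL hν hνL
  have hL0 : 0 < L := lt_of_lt_of_le hlog2 hL
  set t := Real.log ν with ht
  have hte : Real.exp 1 ≤ t := e_le_log hν
  have ht0 : 0 < t := lt_of_lt_of_le (Real.exp_pos 1) hte
  set Λ := Real.log t with hΛ
  have hΛ1 : 1 ≤ Λ := by
    rw [hΛ, Real.le_log_iff_exp_le ht0]; exact hte
  have hΛ0 : 0 < Λ := by linarith
  have hΛs : Λ ≤ Real.sqrt t := log_le_sqrt ht0
  have hst0 : 0 < Real.sqrt t := Real.sqrt_pos.mpr ht0
  have hst1 : 1 ≤ Real.sqrt t := le_trans hΛ1 hΛs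
  have hstt : Real.sqrt t * Real.sqrt t = t := Real.mul_self_sqrt ht0.le
  have hΛt : Λ ≤ t := by nlinarith
  set g := ⌊A1 k * L / t⌋₊ with hg
  set w0 := ⌊B0 * L / Λ⌋₊ + 1 with hw0
  have hgle : (g : ℝ) ≤ A1 k * L / t := Nat.floor_le (by positivity)
  have hglt : A1 k * L / t < g + 1 := Nat.lt_floor_add_one _
  have hw1 : B0 * L / Λ ≤ w0 := by
    rw [hw0]; push_cast; exact (Nat.lt_floor_add_one _).le
  have hw2 : (w0 : ℝ) ≤ B0 * L / Λ + 1 := by
    rw [hw0]; push_cast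
    have := Nat.floor_le (show 0 ≤ B0 * L / Λ by positivity)
    linarith
  have hw0pos : (0 : ℝ) < w0 := by
    have : 0 < w0 := by omega
    exact_mod_cast this
  -- key ratio
  have hkey : 2 ^ RK k * (6 * g) * Real.sqrt t ≤ w0 := by
    have h1 : 2 ^ RK k * (6 * g) * Real.sqrt t ≤ 2 ^ RK k * 6 * A1 k * L / Real.sqrt t := by
      rw [le_div_iff₀ hst0]
      calc 2 ^ RK k * (6 * (g : ℝ)) * Real.sqrt t * Real.sqrt t
          = 2 ^ RK k * 6 * (g * (Real.sqrt t * Real.sqrt t)) := by ring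
        _ = 2 ^ RK k * 6 * (g * t) := by rw [hstt]
        _ ≤ 2 ^ RK k * 6 * (A1 k * L) := by
            refine mul_le_mul_of_nonneg_left ?_ (by positivity)
            rwa [← le_div_iff₀ ht0]
        _ = _ := by ring
    have h2 : 2 ^ RK k * 6 * A1 k * L / Real.sqrt t ≤ 2 ^ RK k * 6 * A1 k * L / Λ :=
      div_le_div_of_nonneg_left (by positivity) hΛ0 hΛs
    have h3 : 2 ^ RK k * 6 * A1 k * L / Λ ≤ B0 * L / Λ :=
      div_le_div_of_nonneg_right (mul_le_mul_of_nonneg_right hB01 hL0.le) hΛ0.le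
    linarith
  refine ⟨g, w0, ?_, by omega, ?_, ?_⟩
  · have h1 : (6 * g : ℝ) ≤ w0 := by
      have h2 : (1 : ℝ) ≤ 2 ^ RK k := one_le_pow₀ (by norm_num)
      have h3 : (0 : ℝ) ≤ 6 * g := by positivity
      calc (6 * g : ℝ) = 1 * (6 * g) * 1 := by ring
        _ ≤ 2 ^ RK k * (6 * g) * Real.sqrt t := by gcongr
        _ ≤ w0 := hkey
    exact_mod_cast h1
  · refine hw2.trans ?_
    rw [add_mul, add_div]
    have : 1 ≤ A1 k * L / Λ := by
      rw [le_div_iff₀ hΛ0]; linarith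
    linarith
  · -- first term
    have hν0 : 0 < ν := by linarith
    have h1 : (ν⁻¹) ^ (g + 1) ≤ Real.exp (-(A1 k * L)) := by
      have h2 : ν⁻¹ = Real.exp (-t) := by rw [ht, Real.exp_neg, Real.exp_log hν0]
      rw [h2, ← Real.exp_nat_mul]
      apply Real.exp_le_exp.mpr
      push_cast
      have h3 : A1 k * L ≤ (g + 1) * t := by
        rw [← div_le_iff₀ ht0]; exact hglt.le
      linarith
    have h2 : (2 ^ RK k * (6 * g) / w0 : ℝ) ^ w0 ≤ Real.exp (-(A2 * L)) := by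
      have h3 : (2 ^ RK k * (6 * g) / w0 : ℝ) ≤ Real.exp (-(Λ / 2)) := by
        have h4 : Real.exp (-(Λ / 2)) = (Real.sqrt t)⁻¹ := by
          rw [Real.exp_neg]
          congr 1
          rw [Real.sqrt_eq_rpow, Real.rpow_def_of_pos ht0]
          congr 1; ring
        rw [h4, div_le_iff₀ hw0pos, ← div_eq_inv_mul, le_div_iff₀ hst0]
        exact hkey
      calc (2 ^ RK k * (6 * g) / w0 : ℝ) ^ w0 ≤ (Real.exp (-(Λ / 2))) ^ w0 :=
            pow_le_pow_left₀ (by positivity) h3 _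
        _ = Real.exp (-(w0 * Λ / 2)) := by
            rw [← Real.exp_nat_mul]; congr 1; ring
        _ ≤ Real.exp (-(A2 * L)) := by
            apply Real.exp_le_exp.mpr
            have h5 : B0 * L ≤ w0 * Λ := by rwa [← div_le_iff₀ hΛ0]
            have h6 : 2 * A2 * L ≤ B0 * L := mul_le_mul_of_nonneg_right hB02 hL0.le
            linarith
    have hX1 : (1 : ℝ) ≤ 4 ^ k * (4 * k) := by nlinarith
    have e1 : (4 : ℝ) ^ k * Real.exp (2 * k * L) * (2 * k * Real.exp (-(A1 k * L))) ≤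
        Real.exp (-L) / 2 := by
      have h3 := absorb hX1 hL
      have h4 : Real.exp (2 * k * L) * Real.exp (-(A1 k * L)) =
          Real.exp (-L) * Real.exp (-(Real.log (4 ^ k * (4 * k)) / Real.log 2 * L)) := by
        rw [← Real.exp_add, ← Real.exp_add]
        congr 1; unfold A1; ring
      calc (4 : ℝ) ^ k * Real.exp (2 * k * L) * (2 * k * Real.exp (-(A1 k * L)))
          = (4 ^ k * (2 * k)) * (Real.exp (2 * k * L) * Real.exp (-(A1 k * L))) := by ring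
        _ = (4 ^ k * (2 * k)) * (Real.exp (-L) *
              Real.exp (-(Real.log (4 ^ k * (4 * k)) / Real.log 2 * L))) := by rw [h4]
        _ ≤ (4 ^ k * (2 * k)) * (Real.exp (-L) * ((4 : ℝ) ^ k * (4 * k))⁻¹) := by
            refine mul_le_mul_of_nonneg_left ?_ (by positivity)
            exact mul_le_mul_of_nonneg_left h3 (Real.exp_pos _).le
        _ = Real.exp (-L) / 2 := by field_simp; norm_num
    have e2 : (4 : ℝ) ^ k * Real.exp (2 * k * L) * (2 ^ (4 ^ (2 * k)) * Real.exp (-(A2 * L))) ≤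
        Real.exp (-L) / 2 := by
      have h3 := absorb hX21 hL
      have h4 : Real.exp (2 * k * L) * Real.exp (-(A2 * L)) =
          Real.exp (-L) * Real.exp (-(Real.log X2 / Real.log 2 * L)) := by
        rw [← Real.exp_add, ← Real.exp_add]
        congr 1; rw [hA2]; ring
      calc (4 : ℝ) ^ k * Real.exp (2 * k * L) * (2 ^ (4 ^ (2 * k)) * Real.exp (-(A2 * L)))
          = (4 ^ k * 2 ^ (4 ^ (2 * k))) * (Real.exp (2 * k * L) * Real.exp (-(A2 * L))) := by ring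
        _ = (4 ^ k * 2 ^ (4 ^ (2 * k))) * (Real.exp (-L) *
              Real.exp (-(Real.log X2 / Real.log 2 * L))) := by rw [h4]
        _ ≤ (4 ^ k * 2 ^ (4 ^ (2 * k))) * (Real.exp (-L) * X2⁻¹) := by
            refine mul_le_mul_of_nonneg_left ?_ (by positivity)
            exact mul_le_mul_of_nonneg_left h3 (Real.exp_pos _).le
        _ = Real.exp (-L) / 2 := by rw [hX2]; field_simp
    calc (4 : ℝ) ^ k * Real.exp (2 * k * L) * (2 * k * (ν⁻¹) ^ (g + 1) +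
        2 ^ (4 ^ (2 * k)) * (2 ^ RK k * (6 * g) / w0 : ℝ) ^ w0)
        ≤ (4 : ℝ) ^ k * Real.exp (2 * k * L) * (2 * k * Real.exp (-(A1 k * L)) +
          2 ^ (4 ^ (2 * k)) * Real.exp (-(A2 * L))) := by
          refine mul_le_mul_of_nonneg_left ?_ (by positivity)
          refine add_le_add ?_ ?_
          · exact mul_le_mul_of_nonneg_left h1 (by positivity)
          · exact mul_le_mul_of_nonneg_left h2 (by positivity)
      _ = (4 : ℝ) ^ k * Real.exp (2 * k * L) * (2 * k * Real.exp (-(A1 k * L))) +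
          (4 : ℝ) ^ k * Real.exp (2 * k * L) * (2 ^ (4 ^ (2 * k)) * Real.exp (-(A2 * L))) := by
          ring
      _ ≤ Real.exp (-L) / 2 + Real.exp (-L) / 2 := add_le_add e1 e2
      _ = Real.exp (-L) := by ring

end Pool.Agent.TH715.SPU
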