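import Pool.Agent.TH715.SPU.Par

/-!
The threshold for distant pairs.
-/

set_option autoImplicit false
set_option linter.unusedSectionVars false
open Finset

namespace Pool.Agent.TH715.SPU

variable {m k : ℕ}

open Classical in
lemma bad_count0 {Q : Finset ℕ} (hQ : ∀ p ∈ Q, p.Prime) (hmN : m ≤ Q.card)
    (E : Finset (Fin m → ℕ)) :
    ((univ.filter fun x : Fin m ↪ Q => ¬ GoodX k 1 E x).card : ℝ) ≤
      (4 : ℝ) ^ k * (E.card : ℝ) ^ (2 * k) * (2 * k * ((m : ℝ) / Q.card)) *
        Fintype.card (Fin m ↪ Q) := by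
  classical
  let 𝒞 := ((univ : Finset (Finset (Fin k ⊕ Fin k))) ×ˢ
    (Fintype.piFinset fun _ : Fin k ⊕ Fin k => E)).filter fun z =>
      ∃ s1 ∈ z.1, ∃ s2 ∈ z.1, 1 ≤ dst (z.2 s1) (z.2 s2)
  have hcov : (univ.filter fun x : Fin m ↪ Q => ¬ GoodX k 1 E x) ⊆
      𝒞.biUnion fun z => univ.filter fun x : Fin m ↪ Q => NRel (asg x) (sg k) z.1 z.2 := by
    intro x hx
    have hx' := (mem_filter.mp hx).2
    unfold GoodX at hx'
    push Not at hx'
    obtain ⟨U, c, hc, hrel, s1, hs1, s2, hs2, hd⟩ := hx'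
    rw [mem_biUnion]
    refine ⟨(U, c), mem_filter.mpr ⟨mem_product.mpr ⟨mem_univ _, Fintype.mem_piFinset.mpr hc⟩,
      s1, hs1, s2, hs2, hd⟩, mem_filter.mpr ⟨mem_univ _, hrel⟩⟩
  have hcard : (𝒞.card : ℝ) ≤ (4 : ℝ) ^ k * (E.card : ℝ) ^ (2 * k) := by
    have h1 : 𝒞.card ≤ 4 ^ k * E.card ^ (2 * k) := by
      refine (card_filter_le _ _).trans ?_
      rw [card_product, Fintype.card_piFinset, prod_const, card_univ, card_univ,
        Fintype.card_finset, Fintype.card_sum, Fintype.card_fin]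
      apply le_of_eq
      rw [← two_mul, pow_mul]
      norm_num
    exact_mod_cast h1
  have hS : Fintype.card (Fin k ⊕ Fin k) = 2 * k := by
    rw [Fintype.card_sum, Fintype.card_fin, two_mul]
  calc ((univ.filter fun x : Fin m ↪ Q => ¬ GoodX k 1 E x).card : ℝ)
      ≤ ((𝒞.biUnion fun z => univ.filter fun x : Fin m ↪ Q =>
          NRel (asg x) (sg k) z.1 z.2).card : ℝ) := by exact_mod_cast card_le_card hcov
    _ ≤ ∑ z ∈ 𝒞, ((univ.filter fun x : Fin m ↪ Q =>
          NRel (asg x) (sg k) z.1 z.2).card : ℝ) := by exact_mod_cast card_biUnion_le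
    _ ≤ ∑ z ∈ 𝒞, ((2 * k * ((m : ℝ) / Q.card)) * Fintype.card (Fin m ↪ Q)) := by
        refine Finset.sum_le_sum fun z hz => ?_
        obtain ⟨s1, hs1, s2, hs2, hd⟩ := (mem_filter.mp hz).2
        obtain ⟨i0, hi0⟩ : (univ.filter fun i => z.2 s1 i ≠ z.2 s2 i).Nonempty := by
          apply card_pos.mp
          exact hd
        have hi0' := (mem_filter.mp hi0).2
        have h1 := class_count hQ (sg k) z.1 z.2 {i0} (fun s => z.2 s i0)
          (fun i hi s _ => by rw [mem_singleton.mp hi]) s1 s2 hs1 hs2 hi0'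
        rw [card_singleton, Nat.factorial_one, mul_one] at h1
        have hm1 : 1 ≤ m := by
          have := i0.2
          omega
        have h2 := desc_ineq1 Q.card m 1 hmN hm1
        rw [Nat.factorial_one, one_mul, pow_one, pow_one] at h2
        have hN0 : (0 : ℝ) < Q.card := by
          have : 0 < Q.card := by omega
          exact_mod_cast this
        have hcardemb : (Fintype.card (Fin m ↪ Q) : ℝ) = Q.card.descFactorial m := by
          rw [Fintype.card_embedding_eq, Fintype.card_coe, Fintype.card_fin]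
        have h3 : (Q.card.descFactorial (m - 1) : ℝ) ≤
            (m : ℝ) / Q.card * Q.card.descFactorial m := by
          rw [div_mul_eq_mul_div, le_div_iff₀ hN0]
          exact_mod_cast h2
        have hUS : (z.1.card : ℝ) ≤ 2 * k := by
          have : z.1.card ≤ 2 * k := by
            rw [← hS]; exact card_le_univ _
          exact_mod_cast this
        calc ((univ.filter fun x : Fin m ↪ Q => NRel (asg x) (sg k) z.1 z.2).card : ℝ)
            ≤ z.1.card * (Q.card.descFactorial (m - 1) : ℝ) := by exact_mod_cast h1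
          _ ≤ (2 * k) * ((m : ℝ) / Q.card * Q.card.descFactorial m) :=
              mul_le_mul hUS h3 (Nat.cast_nonneg _) (by positivity)
          _ = _ := by rw [hcardemb]; ring
    _ = 𝒞.card * ((2 * k * ((m : ℝ) / Q.card)) * Fintype.card (Fin m ↪ Q)) := by
        rw [sum_const, nsmul_eq_mul]
    _ ≤ ((4 : ℝ) ^ k * (E.card : ℝ) ^ (2 * k)) *
          ((2 * k * ((m : ℝ) / Q.card)) * Fintype.card (Fin m ↪ Q)) :=
        mul_le_mul_of_nonneg_right hcard (by positivity)
    _ = _ := by ring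

open Classical in
/-- almost all assignments are good for a threshold `M0` of order `log |E| / log log (N / m)` -/
lemma threshold (k : ℕ) (hk : 1 ≤ k) : ∃ B : ℝ, 0 < B ∧ ∀ (m : ℕ) (E : Finset (Fin m → ℕ)),
    2 ≤ E.card → ∀ Q : Finset ℕ, (∀ p ∈ Q, p.Prime) → 16 * m ≤ Q.card →
    ∃ M0 : ℕ, 1 ≤ M0 ∧
      (M0 = 1 ∨ ((M0 : ℝ) ≤ B * Real.log E.card / Real.log (Real.log ((Q.card : ℝ) / m)) ∧
        0 < Real.log (Real.log ((Q.card : ℝ) / m)))) ∧
      ((univ.filter fun x : Fin m ↪ Q => ¬ GoodX k M0 E x).card : ℝ) ≤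
        (Fintype.card (Fin m ↪ Q) : ℝ) / E.card := by
  obtain ⟨B, hB, hpar⟩ := params k hk
  have hR : (0 : ℝ) < RK k := by
    have : 0 < RK k := Rf_pos _
    exact_mod_cast this
  refine ⟨RK k * B, by positivity, ?_⟩
  intro m E hE2 Q hQ hCm
  have hE0 : (0 : ℝ) < E.card := by
    have : 0 < E.card := by omega
    exact_mod_cast this
  have hm1 : 1 ≤ m := by
    by_contra hc
    have hm0 : m = 0 := by omega
    subst hm0
    have : E.card ≤ 1 := by
      apply card_le_one.mpr
      intro a _ b _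
      exact Subsingleton.elim a b
    omega
  have hm0 : (0 : ℝ) < m := by exact_mod_cast hm1
  have hN0 : (0 : ℝ) < Q.card := by
    have : 0 < Q.card := by omega
    exact_mod_cast this
  set L := Real.log E.card with hL
  have hL2 : Real.log 2 ≤ L := Real.log_le_log (by norm_num) (by exact_mod_cast hE2)
  set ν : ℝ := (Q.card : ℝ) / m with hν
  have hν16 : 16 ≤ ν := by
    rw [hν, le_div_iff₀ hm0]
    exact_mod_cast hCm
  have hν0 : 0 < ν := by linarith
  have hνinv : ν⁻¹ = (m : ℝ) / Q.card := by rw [hν, inv_div]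
  have hEk : (E.card : ℝ) ^ (2 * k) = Real.exp (2 * k * L) := by
    rw [hL, show (2 * (k : ℝ) * Real.log E.card) = ((2 * k : ℕ) : ℝ) * Real.log E.card by
      push_cast; ring, Real.exp_nat_mul, Real.exp_log hE0]
  have hE1 : (1 : ℝ) / E.card = Real.exp (-L) := by
    rw [Real.exp_neg, hL, Real.exp_log hE0, one_div]
  by_cases hbig : Real.log ν < A1 k * L
  · obtain ⟨g, w0, hg, hw0, hw0le, hprob⟩ := hpar L ν hL2 hν16 hbig
    refine ⟨RK k * w0, Nat.mul_pos (Rf_pos _) hw0, Or.inr ⟨?_, ?_⟩, ?_⟩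
    · push_cast
      calc (RK k : ℝ) * w0 ≤ RK k * (B * L / Real.log (Real.log ν)) :=
            mul_le_mul_of_nonneg_left hw0le hR.le
        _ = _ := by ring
    · have h1 := e_le_log hν16
      have h2 : 1 ≤ Real.log (Real.log ν) := by
        rw [Real.le_log_iff_exp_le (lt_of_lt_of_le (Real.exp_pos 1) h1)]
        exact h1
      linarith
    · have h1 := bad_count (k := k) (m := m) hQ (by omega) g w0 hg hw0 E
      refine h1.trans ?_
      rw [hEk, ← hνinv, div_eq_mul_one_div _ (E.card : ℝ), hE1, mul_comm (Fintype.card _ : ℝ)]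
      exact mul_le_mul_of_nonneg_right hprob (Nat.cast_nonneg _)
  · push Not at hbig
    refine ⟨1, le_refl _, Or.inl rfl, ?_⟩
    have h1 := bad_count0 (k := k) hQ (by omega : m ≤ Q.card) E
    refine h1.trans ?_
    rw [hEk, ← hνinv, div_eq_mul_one_div _ (E.card : ℝ), hE1, mul_comm (Fintype.card _ : ℝ)]
    refine mul_le_mul_of_nonneg_right ?_ (Nat.cast_nonneg _)
    have hlog2 : 0 < Real.log 2 := Real.log_pos (by norm_num)
    have hk0 : (1 : ℝ) ≤ k := by exact_mod_cast hk
    have h4k : (1 : ℝ) ≤ 4 ^ k := one_le_pow₀ (by norm_num)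
    have hX1 : (1 : ℝ) ≤ 4 ^ k * (4 * k) := by nlinarith
    have h3 := absorb hX1 hL2
    have h2 : ν⁻¹ ≤ Real.exp (-(A1 k * L)) := by
      have h4 : ν⁻¹ = Real.exp (-Real.log ν) := by rw [Real.exp_neg, Real.exp_log hν0]
      rw [h4]
      exact Real.exp_le_exp.mpr (by linarith)
    have h4 : Real.exp (2 * k * L) * Real.exp (-(A1 k * L)) =
        Real.exp (-L) * Real.exp (-(Real.log (4 ^ k * (4 * k)) / Real.log 2 * L)) := by
      rw [← Real.exp_add, ← Real.exp_add]
      congr 1; unfold A1; ring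
    calc (4 : ℝ) ^ k * Real.exp (2 * k * L) * (2 * k * ν⁻¹)
        ≤ (4 : ℝ) ^ k * Real.exp (2 * k * L) * (2 * k * Real.exp (-(A1 k * L))) := by
          refine mul_le_mul_of_nonneg_left ?_ (by positivity)
          exact mul_le_mul_of_nonneg_left h2 (by positivity)
      _ = (4 ^ k * (2 * k)) * (Real.exp (2 * k * L) * Real.exp (-(A1 k * L))) := by ring
      _ = (4 ^ k * (2 * k)) * (Real.exp (-L) *
            Real.exp (-(Real.log (4 ^ k * (4 * k)) / Real.log 2 * L))) := by rw [h4]
      _ ≤ (4 ^ k * (2 * k)) * (Real.exp (-L) * ((4 : ℝ) ^ k * (4 * k))⁻¹) := by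
          refine mul_le_mul_of_nonneg_left ?_ (by positivity)
          exact mul_le_mul_of_nonneg_left h3 (Real.exp_pos _).le
      _ = Real.exp (-L) / 2 := by field_simp; norm_num
      _ ≤ Real.exp (-L) := by
          have := Real.exp_pos (-L)
          linarith

end Pool.Agent.TH715.SPU
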